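import Pool.Agent.H31.SW.Defs

/-!
# A sub-Weyl bound for Hecke L-functions: targets about lattices
-/

set_option autoImplicit false

open NumberField NumberField.InfinitePlace NumberField.Units
  NumberField.Units.dirichletUnitTheorem MeasureTheory Set Filter Complex
open scoped nonZeroDivisors ENNReal

namespace Pool.Agent.H31.SW

open Pool.Agent.H25.HK Pool.Agent.H23.LB Pool.Agent.H23.LC
open Pool.Agent.H28.RC (Rep ft idl)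
open Pool.Agent.H29.DW (dg Rl lf wv Pos Wg cpar Ci om zs rv)

/-! ### Counting -/

/-- (CU) upper bound for the number of the lattice points in a box. -/
def W_CU : Prop :=
  ∀ n : ℕ, 0 < n → ∃ C : ℝ, 1 ≤ C ∧ ∀ (K : Type) [Field K] [NumberField K],
    Module.finrank ℚ K = n → ∀ (L : FI K) (y : InfinitePlace K → ℝ) (ω : InfinitePlace K → ℂ)
    (c : InfinitePlace K → ℂ) (R : InfinitePlace K → ℝ), L ≠ 0 → Pos ω → (∀ v, 0 ≤ R v) →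
    {x : K | x ∈ L ∧ ∀ v, ‖wv v x y ω - c v‖ ≤ R v}.Finite ∧
    ({x : K | x ∈ L ∧ ∀ v, ‖wv v x y ω - c v‖ ≤ R v}.ncard : ℝ) ≤ C * (1 + DD L y * PP R)

/-- (CL) lower bound for the number of the lattice points in a box at the origin. -/
def W_CL : Prop :=
  ∀ n : ℕ, 0 < n → ∃ c : ℝ, 0 < c ∧ ∀ (K : Type) [Field K] [NumberField K],
    Module.finrank ℚ K = n → ∀ (L : FI K) (y : InfinitePlace K → ℝ) (ω : InfinitePlace K → ℂ)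
    (R : InfinitePlace K → ℝ), L ≠ 0 → Pos ω → (∀ v, 0 < R v) →
    c * (DD L y * PP R) / Real.sqrt (dK K) ≤
      ({x : K | x ∈ L ∧ ∀ v, ‖wv v x y ω‖ ≤ R v}.ncard : ℝ)

/-- (WS) weighted sums over a lattice. -/
def W_WS : Prop :=
  ∀ n : ℕ, 0 < n → ∃ C : ℝ, 1 ≤ C ∧ ∀ (K : Type) [Field K] [NumberField K],
    Module.finrank ℚ K = n → ∀ (L : FI K) (y : InfinitePlace K → ℝ) (ω : InfinitePlace K → ℂ)
    (J : InfinitePlace K → ℝ) (k : ℕ), L ≠ 0 → Pos ω → (∀ v, 0 < J v) → 3 ≤ k →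
    Summable (fun x : {x : K // x ∈ L} => ∏ v : InfinitePlace K,
      (1 + ‖wv v x.1 y ω‖ / J v) ^ (-(k : ℝ))) ∧
    ∑' x : {x : K // x ∈ L}, ∏ v : InfinitePlace K, (1 + ‖wv v x.1 y ω‖ / J v) ^ (-(k : ℝ)) ≤
      C * (1 + DD L y * PP J)

/-- (DY) sums of negative powers over the nonzero points of a box. -/
def W_DY : Prop :=
  ∀ n : ℕ, 0 < n → ∃ C : ℝ, 1 ≤ C ∧ ∀ (K : Type) [Field K] [NumberField K],
    Module.finrank ℚ K = n → ∀ (L : FI K) (y : InfinitePlace K → ℝ) (ω : InfinitePlace K → ℂ)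
    (R : InfinitePlace K → ℝ) (X : Finset K), L ≠ 0 → Pos ω → (∀ v, 0 < R v) →
    (∀ x ∈ X, x ∈ L ∧ x ≠ 0 ∧ ∀ v, ‖wv v x y ω‖ ≤ R v) →
    ∑ x ∈ X, ∏ v : InfinitePlace K, (‖wv v x y ω‖ / R v) ^ (-(v.mult : ℝ) / 2) ≤
      C * (DD L y * PP R)

/-- (NB) the norm bound. -/
def W_NB : Prop :=
  ∀ (K : Type) [Field K] [NumberField K] (L : FI K) (y : InfinitePlace K → ℝ)
    (ω : InfinitePlace K → ℂ) (x : K), L ≠ 0 → Pos ω → x ∈ L → x ≠ 0 →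
    1 ≤ DD L y * ∏ v : InfinitePlace K, ‖wv v x y ω‖ ^ v.mult

/-! ### Differencing -/

open scoped Classical in
/-- (WD) the inequality of Weyl and van der Corput. -/
def W_WD : Prop :=
  ∀ (K : Type) [Field K] [NumberField K] (L : FI K) (F : K → ℂ) (B : Finset K) (N : ℝ),
    {x : K | x ∈ L ∧ F x ≠ 0}.Finite → (∀ b ∈ B, b ∈ L) → B.Nonempty →
    ({x : K | x ∈ L ∧ ∃ b ∈ B, F (x + b) ≠ 0}.ncard : ℝ) ≤ N →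
    ‖∑' x : {x : K // x ∈ L}, F x‖ ^ 2 ≤ N / (B.card : ℝ) *
      ∑ γ ∈ (B ×ˢ B).image (fun q => q.1 - q.2), ‖∑' x : {x : K // x ∈ L}, dif γ F x‖

open scoped Classical in
/-- the nonzero differences -/
noncomputable def nd {K : Type} [Field K] (B : Finset K) : Finset K :=
  ((B ×ˢ B).image (fun q => q.1 - q.2)).filter (fun x => x ≠ 0)

/-- (TD) three differencing steps. -/
def W_TD : Prop :=
  ∀ (K : Type) [Field K] [NumberField K] (L : FI K) (F : K → ℂ) (B₁ B₂ B₃ : Finset K)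
    (N ν₁ ν₂ ν₃ m₁ m₂ : ℝ),
    {x : K | x ∈ L ∧ F x ≠ 0}.Finite → (∀ x, ‖F x‖ ≤ 1) → (∀ b ∈ B₁, b ∈ L) → (∀ b ∈ B₂, b ∈ L) →
    (∀ b ∈ B₃, b ∈ L) → 0 ∈ B₁ → 0 ∈ B₂ → 0 ∈ B₃ →
    ({x : K | x ∈ L ∧ ∃ b ∈ B₁, F (x + b) ≠ 0}.ncard : ℝ) ≤ N →
    ({x : K | x ∈ L ∧ ∃ b ∈ B₂, F (x + b) ≠ 0}.ncard : ℝ) ≤ N →
    ({x : K | x ∈ L ∧ ∃ b ∈ B₃, F (x + b) ≠ 0}.ncard : ℝ) ≤ N →
    N / (B₁.card : ℝ) ≤ ν₁ → N / (B₂.card : ℝ) ≤ ν₂ → N / (B₃.card : ℝ) ≤ ν₃ →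
    ((nd B₁).card : ℝ) ≤ m₁ → ((nd B₂).card : ℝ) ≤ m₂ →
    ‖∑' x : {x : K // x ∈ L}, F x‖ ^ 8 ≤ 8 * ν₁ ^ 4 * N ^ 4 + 16 * (ν₁ * m₁) ^ 4 * ν₂ ^ 2 * N ^ 2 +
      16 * (ν₁ * m₁) ^ 4 * (ν₂ * m₂) ^ 2 * ν₃ * N +
      16 * (ν₁ * m₁) ^ 3 * (ν₂ * m₂) * (ν₁ * ν₂ * ν₃) * ∑ g₁ ∈ nd B₁, ∑ g₂ ∈ nd B₂, ∑ g₃ ∈ nd B₃,
        ‖∑' x : {x : K // x ∈ L}, dif g₃ (dif g₂ (dif g₁ F)) x‖

/-! ### Poisson summation -/

/-- (PO) Poisson summation for the shifted lattice and a product of local functions. -/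
def W_PO : Prop :=
  ∀ (K : Type) [Field K] [NumberField K] (L : FI K) (r : K) (G : InfinitePlace K → ℂ → ℂ),
    L ≠ 0 → (∀ v, Continuous (G v)) → (∃ R : ℝ, ∀ v w, R < ‖w‖ → G v w = 0) →
    (∃ C : ℝ, ∀ v ξ, Rl (rv v) ξ → ‖FF (rv v) (G v) ξ‖ ≤
      C * (1 + ‖ξ‖) ^ (-(Module.finrank ℚ K + 1 : ℝ))) →
    ∀ (y : InfinitePlace K → ℝ) (ω : InfinitePlace K → ℂ), Pos ω →
    Summable (fun x : {x : K // x ∈ du K L} => ‖∏ v, FF (rv v) (G v)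
      (2 * Real.pi * dg (rv v) * wv v x (-y) (fun v => (starRingEnd ℂ) (ω v)))‖) ∧
    ∑' x : {x : K // x ∈ L}, pF G y ω (r + x) =
      ((DD L y / Real.sqrt (dK K) : ℝ) : ℂ) *
        ∑' x : {x : K // x ∈ du K L}, ca K r x * ∏ v, FF (rv v) (G v)
          (2 * Real.pi * dg (rv v) * wv v x (-y) (fun v => (starRingEnd ℂ) (ω v)))

/-- (P3) the sum of three differences of a product of local data. -/
def W_P3 : Prop :=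
  ∀ n : ℕ, 0 < n → ∃ C : ℝ, 0 ≤ C ∧ ∀ (K : Type) [Field K] [NumberField K],
    Module.finrank ℚ K = n → ∀ (L : FI K) (y : InfinitePlace K → ℝ) (ω : InfinitePlace K → ℂ)
    (t : InfinitePlace K → Bool) (Λ a g : InfinitePlace K → ℂ) (F : InfinitePlace K → ℂ → ℂ),
    L ≠ 0 → Pos ω → (∀ v, LDat (n + 5) (rv v) (t v) (Λ v) (a v) (g v) (F v)) →
    ∀ g₁ g₂ g₃ : K, g₁ ≠ 0 → g₂ ≠ 0 → g₃ ≠ 0 →
    (∀ v, t v = true → ‖wv v g₁ y ω‖ ≤ 1 / 2000 * ‖Λ v‖ ∧ ‖wv v g₂ y ω‖ ≤ 1 / 2000 * ‖Λ v‖ ∧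
      ‖wv v g₃ y ω‖ ≤ 1 / 2000 * ‖Λ v‖) →
    ‖∑' x : {x : K // x ∈ L}, dif g₃ (dif g₂ (dif g₁ (pF F y ω))) x‖ ≤
      C * Real.sqrt (dK K) * ((DD L y * PP (fun v => Mt (t v) (Λ v))) *
        PP (fun v => 1 + Ph (t v) (Λ v) (wv v g₁ y ω) (wv v g₂ y ω) (wv v g₃ y ω)) ^
          (-(1 / 2) : ℝ) +
        PP (fun v => 1 + Ph (t v) (Λ v) (wv v g₁ y ω) (wv v g₂ y ω) (wv v g₃ y ω)) ^
          (1 / 2 : ℝ))

/-! ### The dual sums -/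

/-- (GD) the bound for the dual sums. -/
def W_GD : Prop :=
  ∀ n : ℕ, 0 < n → ∃ C : ℝ, 0 ≤ C ∧ ∀ (K : Type) [Field K] [NumberField K],
    Module.finrank ℚ K = n → ∀ (L : FI K) (y : InfinitePlace K → ℝ) (ω : InfinitePlace K → ℂ)
    (t : InfinitePlace K → Bool) (Λ a g : InfinitePlace K → ℂ) (F : InfinitePlace K → ℂ → ℂ)
    (r : K), L ≠ 0 → Pos ω → (∀ v, LDat (n + 5) (rv v) (t v) (Λ v) (a v) (g v) (F v)) →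
    ‖∑' x : {x : K // x ∈ L}, ca K r x * pF F y ω x‖ ≤ C * Real.sqrt (dK K) *
      (1 + DD L y ^ (5 / 6 : ℝ) * PP (fun v => Mt (t v) (Λ v)) ^ (13 / 15 : ℝ) +
        DD L y ^ (25 / 24 : ℝ) * PP (fun v => Mt (t v) (Λ v)) ^ (121 / 120 : ℝ))

/-- (NG) the numbers: the trivial bound is sufficient or the parameters are admissible. -/
def W_NG : Prop :=
  ∀ D Φ : ℝ, 0 < D → 1 ≤ Φ →
    (1 + D * Φ ≤ 2 * (1 + D ^ (5 / 6 : ℝ) * Φ ^ (13 / 15 : ℝ) +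
      D ^ (25 / 24 : ℝ) * Φ ^ (121 / 120 : ℝ))) ∨
    ∃ R θ₁ θ₂ θ₃ P : ℝ, 1 ≤ R ∧ 0 ≤ θ₁ ∧ 0 ≤ θ₂ ∧ 0 ≤ θ₃ ∧ θ₁ + θ₂ + θ₃ ≤ 1 ∧ 1 ≤ P ∧
      1 ≤ D * Φ ∧ P = Φ ^ (1 - θ₁ - θ₂ - θ₃) ∧ D * Φ ^ (1 - θ₁) = R ^ (1 / 4 : ℝ) ∧
      D * Φ ^ (1 - θ₂) = R ^ (1 / 2 : ℝ) ∧ D * Φ ^ (1 - θ₃) = R ∧
      ∀ C S : ℝ, 0 ≤ C → 0 ≤ S →
        S ^ 8 ≤ C ^ 8 * ((D * Φ) ^ 8 * R⁻¹ + (D * Φ) ^ 8 * P ^ (-(1 / 2) : ℝ) +
          (D * Φ) ^ 7 * P ^ (1 / 2 : ℝ)) →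
        S ≤ C * (3 * (D ^ (5 / 6 : ℝ) * Φ ^ (13 / 15 : ℝ) +
          D ^ (25 / 24 : ℝ) * Φ ^ (121 / 120 : ℝ)))

/-! ### The sums after the first step -/

/-- (PE) products of sums. -/
def W_PE : Prop :=
  ∀ (ι J : Type) [Fintype ι] [DecidableEq ι] (f : ι → J → ℂ), (∀ i, Summable (fun j => ‖f i j‖)) →
    Summable (fun j : ι → J => ‖∏ i, f i (j i)‖) ∧
    ∏ i, ∑' j, f i j = ∑' j : ι → J, ∏ i, f i (j i)

/-- (SX) interchange of the sum over the lattice and the sums over the pieces. -/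
def W_SX : Prop :=
  ∀ (K : Type) [Field K] [NumberField K] (L : FI K) (y : InfinitePlace K → ℝ)
    (ω : InfinitePlace K → ℂ) (J : Type) (F : InfinitePlace K → J → ℂ → ℂ)
    (g : InfinitePlace K → J → ℂ) (R : ℝ) (c : InfinitePlace K → J → ℝ) (χ : K → ℂ), L ≠ 0 →
    Pos ω → (∀ x, ‖χ x‖ ≤ 1) → (∀ v j z, ‖F v j z‖ ≤ c v j) →
    (∀ v j z, R < ‖z - g v j‖ → F v j z = 0) → (∀ v, Summable (c v)) →
    Summable (fun j : InfinitePlace K → J =>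
      ‖∑' x : {x : K // x ∈ L}, χ x * pF (fun v => F v (j v)) y ω x‖) ∧
    ∑' x : {x : K // x ∈ L}, χ x * pF (fun v z => ∑' j, F v j z) y ω x =
      ∑' j : InfinitePlace K → J, ∑' x : {x : K // x ∈ L}, χ x * pF (fun v => F v (j v)) y ω x

/-- (SD) the bound for the sum after the first differencing step. -/
def W_SD : Prop :=
  ∀ (n : ℕ) (p : Bool → ℂ → ℂ), 0 < n → Pf p → ∃ C : ℝ, 0 ≤ C ∧ ∀ (K : Type) [Field K]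
    [NumberField K], Module.finrank ℚ K = n → ∀ (L : FI K) (y : InfinitePlace K → ℝ)
    (ω : InfinitePlace K → ℂ) (c : InfinitePlace K → ℂ) (r δ : K), L ≠ 0 → Pos ω →
    (∀ v, Rl (rv v) (c v)) → δ ≠ 0 → (∀ v, ‖wv v δ y ω‖ ≤ 1 / 10000) →
    ‖∑' x : {x : K // x ∈ L}, pF (fun v => G2 (p (rv v)) (c v) (wv v δ y ω)) y ω (r + x)‖ ≤
      C * dK K ^ 2 * (DD L y * PP (fun v => max 1 ‖2 * c v * wv v δ y ω‖) ^ (-(1 / 2) : ℝ) +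
        DD L y ^ (1 / 6 : ℝ) * PP (fun v => max 1 ‖2 * c v * wv v δ y ω‖) ^ (11 / 30 : ℝ) +
        DD L y ^ (-(1 / 24) : ℝ) * PP (fun v => max 1 ‖2 * c v * wv v δ y ω‖) ^ (61 / 120 : ℝ))

/-- (NM) the numbers of the first step. -/
def W_NM : Prop :=
  ∀ A T Φ : ℝ, 1 ≤ T → T ^ (27 / 82 : ℝ) ≤ A → T / A ≤ Φ → Φ ≤ T ^ (55 / 82 : ℝ) →
    A * Φ ^ (-(1 / 2) : ℝ) + A ^ (1 / 6 : ℝ) * Φ ^ (11 / 30 : ℝ) +
      A ^ (-(1 / 24) : ℝ) * Φ ^ (61 / 120 : ℝ) ≤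
    3 * (T ^ (27 / 82 : ℝ) * (1 + A / T ^ (1 / 2 : ℝ)) ^ (3 / 2 : ℝ))

/-- (ME) the bound for the sum over a residue class. -/
def W_ME : Prop :=
  ∀ (n : ℕ) (p : Bool → ℂ → ℂ), 0 < n → Pf p → ∃ C : ℝ, 0 ≤ C ∧ ∀ (K : Type) [Field K]
    [NumberField K], Module.finrank ℚ K = n → ∀ (L : FI K) (y : InfinitePlace K → ℝ)
    (ω : InfinitePlace K → ℂ) (c : InfinitePlace K → ℂ) (r : K), L ≠ 0 → Pos ω →
    (∀ v, Rl (rv v) (c v)) →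
    ‖∑' x : {x : K // x ∈ L}, pF (fun v => GG (p (rv v)) (c v)) y ω (r + x)‖ ≤
      C * dK K ^ (5 / 4 : ℝ) * (1 + DD L y) ^ (1 / 2 : ℝ) *
        PP (fun v => 1 + ‖c v‖) ^ (27 / 164 : ℝ) *
          (1 + DD L y / PP (fun v => 1 + ‖c v‖) ^ (1 / 2 : ℝ)) ^ (3 / 4 : ℝ)

end Pool.Agent.H31.SW
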