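import Pool.Agent.H31.SW.Tools

/-!
# A sub-Weyl bound for Hecke L-functions: holomorphic functions and smooth functions
-/

set_option autoImplicit false
set_option linter.unusedVariables false

open NumberField NumberField.InfinitePlace MeasureTheory Set Filter Complex
open scoped Topology

namespace Pool.Agent.H31.SW

open Pool.Agent.H29.DW (dg Rl lf)

/-- the inequalities of Cauchy -/
theorem DB.hol (n : ℕ) : ∀ R₁ R₂ : ℝ, 0 < R₁ → R₁ < R₂ → ∃ C : ℝ, 1 ≤ C ∧
    ∀ (w₀ : ℂ) (B : ℝ) (f : ℂ → ℂ), 0 ≤ B → DifferentiableOn ℂ f (Metric.ball w₀ R₂) →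
    (∀ z ∈ Metric.ball w₀ R₂, ‖f z‖ ≤ B) → DB n (fun _ => C * B) (Metric.ball w₀ R₁) f := by
  induction n with
  | zero =>
    intro R₁ R₂ h1 h2
    refine ⟨1, le_rfl, fun w₀ B f hB hf hb => ⟨?_, fun z hz => ?_⟩⟩
    · exact (hf.mono (Metric.ball_subset_ball h2.le)).continuousOn
    · rw [one_mul]
      exact hb z (Metric.ball_subset_ball h2.le hz)
  | succ n ih =>
    intro R₁ R₂ h1 h2
    set R₃ : ℝ := (R₁ + R₂) / 2 with hR₃
    obtain ⟨C, hC, hC'⟩ := ih R₁ R₃ h1 (by rw [hR₃]; linarith)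
    set ρ : ℝ := (R₂ - R₁) / 4 with hρ
    have hρ0 : 0 < ρ := by rw [hρ]; linarith
    refine ⟨C / ρ + 1, by
      have : 0 ≤ C / ρ := by positivity
      linarith, fun w₀ B f hB hf hb => ?_⟩
    have hd : ∀ z ∈ Metric.ball w₀ R₃, ‖deriv f z‖ ≤ B / ρ := by
      intro z hz
      have hsub : Metric.closedBall z ρ ⊆ Metric.ball w₀ R₂ := by
        intro w hw
        rw [Metric.mem_closedBall] at hw
        rw [Metric.mem_ball] at hz ⊢
        calc dist w w₀ ≤ dist w z + dist z w₀ := dist_triangle _ _ _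
          _ < ρ + R₃ := by linarith
          _ ≤ R₂ := by rw [hρ, hR₃]; linarith
      refine Complex.norm_deriv_le_of_forall_mem_sphere_norm_le hρ0 ?_ (fun w hw => ?_)
      · refine ⟨hf.mono (Metric.ball_subset_closedBall.trans hsub), ?_⟩
        rw [closure_ball z hρ0.ne']
        exact (hf.mono hsub).continuousOn
      · exact hb w (hsub (Metric.sphere_subset_closedBall hw))
    have hf' : DifferentiableOn ℂ (deriv f) (Metric.ball w₀ R₃) :=
      (hf.deriv Metric.isOpen_ball).mono (Metric.ball_subset_ball (by rw [hR₃]; linarith))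
    have h3 := hC' w₀ (B / ρ) (deriv f) (by positivity) hf' hd
    have hle : ∀ z ∈ Metric.ball w₀ R₁, C * (B / ρ) ≤ (C / ρ + 1) * B := by
      intro z _
      have : C * (B / ρ) = C / ρ * B := by ring
      rw [this]
      nlinarith
    have h4 : DB n (fun _ => (C / ρ + 1) * B) (Metric.ball w₀ R₁) (deriv f) :=
      h3.mono subset_rfl hle
    refine ⟨fun z hz => ?_, deriv f, fun z => I * deriv f z, fun z hz => ?_, h4, ?_⟩
    · refine (hb z (Metric.ball_subset_ball h2.le hz)).trans ?_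
      have : 0 ≤ C / ρ * B := by positivity
      nlinarith
    · refine hd_hol ?_
      exact (hf.differentiableAt (Metric.isOpen_ball.mem_nhds
        (Metric.ball_subset_ball h2.le hz))).hasDerivAt
    · refine (h4.const_mul I).mono subset_rfl fun z _ => ?_
      rw [Complex.norm_I, one_mul]

/-- the inequalities of Cauchy for the function and its derivative -/
theorem DB.hol_deriv (n : ℕ) (R₁ R₂ : ℝ) (h1 : 0 < R₁) (h2 : R₁ < R₂) : ∃ C : ℝ, 1 ≤ C ∧
    ∀ (w₀ : ℂ) (B : ℝ) (f f' : ℂ → ℂ), 0 ≤ B →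
    (∀ z ∈ Metric.ball w₀ R₂, HasDerivAt f (f' z) z) →
    (∀ z ∈ Metric.ball w₀ R₂, ‖f z‖ ≤ B) → DB n (fun _ => C * B) (Metric.ball w₀ R₁) f ∧
      DB n (fun _ => C * B) (Metric.ball w₀ R₁) f' := by
  obtain ⟨C, hC, h⟩ := DB.hol (n + 1) R₁ R₂ h1 h2
  refine ⟨C, hC, fun w₀ B f f' hB hf hb => ?_⟩
  have h3 := h w₀ B f hB (fun z hz => (hf z hz).differentiableAt.differentiableWithinAt) hb
  refine ⟨h3.of_succ, ?_⟩
  obtain ⟨-, F₁, F₂, h4, h5, -⟩ := h3
  refine h5.congr Metric.isOpen_ball fun z hz => ?_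
  have hz' := Metric.ball_subset_ball h2.le hz
  exact ((hd_hol (hf z hz')).unique (h4 z hz)).1

/-- smooth functions with compact support -/
theorem DS.of_contDiff (n : ℕ) {F : ℂ → ℂ} {w₀ : ℂ} {ρ : ℝ} (hF : ∀ n : ℕ, ContDiff ℝ n F)
    (h0 : ∀ z, ρ < ‖z - w₀‖ → F z = 0) : ∃ C : ℝ, 0 ≤ C ∧ DS n C w₀ ρ F := by
  induction n generalizing F with
  | zero =>
    have hc : Continuous F := (hF 0).continuous
    have hcs : HasCompactSupport F := by
      refine HasCompactSupport.intro (isCompact_closedBall w₀ ρ) fun z hz => h0 z ?_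
      rw [Metric.mem_closedBall, dist_eq_norm, not_le] at hz
      exact hz
    obtain ⟨C, hC⟩ := hcs.exists_bound_of_continuous hc
    refine ⟨max C 0, le_max_right _ _, continuousOn_univ.2 hc, fun z _ => ?_⟩
    by_cases hz : ‖z - w₀‖ ≤ ρ
    · rw [ind_of_mem hz]
      exact (hC z).trans (le_max_left _ _)
    · rw [ind_of_not_mem (not_le.1 hz), h0 z (not_le.1 hz), norm_zero]
  | succ n ih =>
    have hd : ∀ d : ℂ, (∀ n : ℕ, ContDiff ℝ n (fun z => _root_.fderiv ℝ F z d)) ∧
        ∀ z, ρ < ‖z - w₀‖ → _root_.fderiv ℝ F z d = 0 := by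
      intro d
      refine ⟨fun m => ?_, fun z hz => ?_⟩
      · exact ((hF (m + 1)).fderiv_right (m := m) (by push_cast; exact le_rfl)).clm_apply
          contDiff_const
      · have h1 : F =ᶠ[𝓝 z] fun _ => 0 := by
          have hopen : IsOpen {z : ℂ | ρ < ‖z - w₀‖} :=
            isOpen_lt continuous_const (by fun_prop)
          filter_upwards [hopen.mem_nhds hz] with w hw using h0 w hw
        rw [h1.fderiv_eq]
        simp
    obtain ⟨C₁, hC₁, h1⟩ := ih (hd 1).1 (hd 1).2
    obtain ⟨C₂, hC₂, h2⟩ := ih (hd I).1 (hd I).2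
    have hc : Continuous F := (hF 0).continuous
    have hcs : HasCompactSupport F := by
      refine HasCompactSupport.intro (isCompact_closedBall w₀ ρ) fun z hz => h0 z ?_
      rw [Metric.mem_closedBall, dist_eq_norm, not_le] at hz
      exact hz
    obtain ⟨C, hC⟩ := hcs.exists_bound_of_continuous hc
    refine ⟨max C (max C₁ C₂), hC₁.trans ((le_max_left _ _).trans (le_max_right _ _)),
      fun z _ => ?_, _, _, fun z _ => hd_of_fderiv ((hF 1).differentiable (by norm_num) z), ?_, ?_⟩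
    · by_cases hz : ‖z - w₀‖ ≤ ρ
      · rw [ind_of_mem hz]
        exact (hC z).trans (le_max_left _ _)
      · rw [ind_of_not_mem (not_le.1 hz), h0 z (not_le.1 hz), norm_zero]
    · exact DS.mono h1 ((le_max_left _ _).trans (le_max_right _ _))
        (hC₁.trans ((le_max_left _ _).trans (le_max_right _ _))) le_rfl
    · exact DS.mono h2 ((le_max_right _ _).trans (le_max_right _ _))
        (hC₁.trans ((le_max_left _ _).trans (le_max_right _ _))) le_rfl

end Pool.Agent.H31.SW
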