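import Pool.Agent.H31.SW.Defs

/-!
# A sub-Weyl bound for Hecke L-functions: targets for the assembly
-/

set_option autoImplicit false

open NumberField NumberField.InfinitePlace NumberField.Units
  NumberField.Units.dirichletUnitTheorem MeasureTheory Set Filter Complex
open scoped nonZeroDivisors ENNReal

namespace Pool.Agent.H31.SW

open Pool.Agent.H25.HK Pool.Agent.H23.LB Pool.Agent.H23.LC
open Pool.Agent.H28.RC (Rep ft idl)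
open Pool.Agent.H29.DW (dg Rl lf wv Pos Wg cpar Ci om zs rv Wt)

/-- a bump function with support in `|x| ≤ 1 / 10000` -/
noncomputable def bz : ContDiffBump (0 : ℂ) := ⟨1 / 20000, 1 / 10000, by norm_num, by norm_num⟩

/-- the same for both types of places -/
noncomputable def pz : Bool → ℂ → ℂ := fun _ x => (bz x : ℂ)

/-- the functions `p(x) |1 + x| ^ (-e (1 / 2 + σ))` -/
noncomputable def ps (σ : ℝ) (p : Bool → ℂ → ℂ) : Bool → ℂ → ℂ := fun r x =>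
  p r x * ((‖1 + x‖ ^ (-(dg r * (1 / 2 + σ) : ℝ)) : ℝ) : ℂ)

/-- general local test functions -/
structure Tf {K : Type} [Field K] [NumberField K] (G : InfinitePlace K → ℂ → ℂ) : Prop where
  meas : ∀ v, Measurable (G v)
  norm : ∀ v w, ‖G v w‖ ≤ 1
  supp : ∀ v w, 1 / 16 < ‖w - 1‖ → G v w = 0

open scoped Classical in
/-- the Mellin transform of the test function -/
noncomputable def WG (K : Type) [Field K] [NumberField K] (G : InfinitePlace K → ℂ → ℂ)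
    (k : InfinitePlace K → ℤ) (ν : InfinitePlace K → ℝ) (t : ℝ) : ℂ :=
  ∫ u : logSpace K × ℝ, ec K ν u.1 * cexp (t * u.2 * I) *
    ∫ θ in An K, ek k θ * pF G (yc K u.2 u.1) (om true θ) (1 : K)

open scoped Classical in
/-- (UP) unfolding. -/
def W_UP : Prop :=
  ∀ (K : Type) [Field K] [NumberField K] (f : Ideal (𝓞 K)), f ≠ ⊥ → ∀ (χ : HG K f)
    (ι : Type) [Fintype ι] (M : ι → FI K), Reps K M → ∀ (G : InfinitePlace K → ℂ → ℂ)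
    (t : ℝ) (v : ℝ → ℂ), Tf G →
    (∃ C : ℝ, ∀ x : ℝ, 1 ≤ x → ‖v x‖ ≤ C * x ^ (-(3 / 2) : ℝ)) →
    ∑ c, ∫ p in Fd K ×ˢ (univ : Set ℝ) ×ˢ An K, ec K χ.ν p.1 * cexp (t * p.2.1 * I) *
      (ek χ.k p.2.2 * ∑' x : {x : K // x ∈ M c ∧ x ≠ 0}, cg χ (M c) x *
        v (Ideal.absNorm (idl K (M c) x)) *
          pF G (yM K (M c) p.2.1 (zs true p.1)) (om true p.2.2) x) =
      (torsionOrder K : ℂ) * WG K G χ.k χ.ν t *
        ∑' J : NZI K, χ.ψ J.1 * v (Ideal.absNorm J.1) *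
          (Ideal.absNorm J.1 : ℂ) ^ (-(t * I : ℂ))

open scoped Classical in
/-- (UQ) dual unfolding. -/
def W_UQ : Prop :=
  ∀ (K : Type) [Field K] [NumberField K] (f : Ideal (𝓞 K)), f ≠ ⊥ → ∀ (D : Sys K f)
    (χ : HG K f) (G : InfinitePlace K → ℂ → ℂ) (t : ℝ) (v : ℝ → ℂ), Tf G →
    (∃ C : ℝ, ∀ x : ℝ, 1 ≤ x → ‖v x‖ ≤ C * x ^ (-(3 / 2) : ℝ)) →
    ∑ c, ∫ p in Fd K ×ˢ (univ : Set ℝ) ×ˢ An K, ec K χ.ν p.1 * cexp (t * p.2.1 * I) *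
      (ek χ.k p.2.2 * ∑' x : {x : K // x ∈ du K ((f : FI K) * D.M c) ∧ x ≠ 0}, ch D χ c x *
        v (Ideal.absNorm (idl K (du K ((f : FI K) * D.M c)) x)) *
          pF G (yM K (du K ((f : FI K) * D.M c)) p.2.1 (zs false p.1)) (om false p.2.2) x) =
      (torsionOrder K : ℂ) * WG K G (-χ.k) (-χ.ν) t * ((Real.sqrt (Nf K f) : ℝ) : ℂ) *
        ∑' J : NZI K, cd D χ J.1 * v (Ideal.absNorm J.1) *
          (Ideal.absNorm J.1 : ℂ) ^ (-(t * I : ℂ))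

/-- (WL) the lower bound for the Mellin transform. -/
def W_WL : Prop :=
  ∀ n : ℕ, 0 < n → ∃ c₀ : ℝ, 0 < c₀ ∧ ∀ (K : Type) [Field K] [NumberField K],
    Module.finrank ℚ K = n → ∀ (k : InfinitePlace K → ℤ) (ν : InfinitePlace K → ℝ) (t : ℝ),
    ∑ v, (v.mult : ℝ) * ν v = 0 →
    c₀ ≤ ‖WG K (fun v => GG (pz (rv v)) (cpar k ν t v)) k ν t‖

open scoped Classical in
/-- (MS) measurability, bounds, supports. -/
def W_MS : Prop :=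
  ∀ (K : Type) [Field K] [NumberField K] (M : FI K) (c : InfinitePlace K → ℂ)
    (p : Bool → ℂ → ℂ) (cc : K → ℂ) (s : Bool), M ≠ 0 → Pf p →
    (∃ C : ℝ, ∀ x ∈ M, ‖cc x‖ ≤ C) →
    Measurable (fun u : logSpace K × ℝ × (InfinitePlace K → ℝ) =>
      ∑' x : {x : K // x ∈ M}, cc x *
        pF (fun v => GG (p (rv v)) (c v)) (yM K M u.2.1 (zs s u.1)) (om s u.2.2) x) ∧
    (∀ (z : logSpace K) (τ : ℝ) (θ : InfinitePlace K → ℝ) (x : K), x ∈ M →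
      pF (fun v => GG (p (rv v)) (c v)) (yM K M τ z) (om s θ) x ≠ 0 →
        x ≠ 0 ∧ τ ≤ Module.finrank ℚ K)

open scoped Classical in
/-- (IN) the integral representation of the weights. -/
def W_IN : Prop :=
  ∀ (K : Type) [Field K] [NumberField K] (M : FI K) (c : InfinitePlace K → ℂ)
    (p : Bool → ℂ → ℂ) (cc : K → ℂ) (κ X B : ℝ) (v : ℝ → ℂ), M ≠ 0 → Pf p →
    (∃ C : ℝ, ∀ x ∈ M, ‖cc x‖ ≤ C) → 0 < κ → κ ≤ 1 → 0 < X → 0 ≤ B →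
    Wt κ X B v → ∀ (z : logSpace K) (τ : ℝ) (ω : InfinitePlace K → ℂ) (σ : ℝ), Pos ω →
    (σ = κ ∨ σ = 1) →
    ENNReal.ofReal (‖∑' x : {x : K // x ∈ M ∧ x ≠ 0}, cc x *
        v (Ideal.absNorm (idl K M x)) *
          pF (fun v => GG (p (rv v)) (c v)) (yM K M τ z) ω x‖) ≤
      ENNReal.ofReal (B * X ^ σ * Real.exp (τ * (1 / 2 + σ))) * ∫⁻ u : ℝ,
        ENNReal.ofReal (Real.exp (-u ^ 2 / 4) * ‖∑' x : {x : K // x ∈ M}, cc x *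
          pF (fun v => GG (ps σ p (rv v)) (c v + (v.mult : ℂ) * u)) (yM K M τ z) ω x‖)

/-- (RS) the sum over the residue classes. -/
def W_RS : Prop :=
  ∀ (n : ℕ) (p : Bool → ℂ → ℂ), 0 < n → Pf p → ∃ C : ℝ, 0 ≤ C ∧ ∀ (K : Type) [Field K]
    [NumberField K], Module.finrank ℚ K = n → ∀ (j : Ideal (𝓞 K)) (M : FI K) (cc : K → ℂ)
    (y : InfinitePlace K → ℝ) (ω : InfinitePlace K → ℂ) (c : InfinitePlace K → ℂ) (E : ℝ),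
    j ≠ ⊥ → M ≠ 0 → Pos ω → (∀ v, Rl (rv v) (c v)) →
    (∀ x ∈ M, ∀ l ∈ (j : FI K) * M, cc (x + l) = cc x) → (∀ x ∈ M, ‖cc x‖ ≤ E) →
    ‖∑' x : {x : K // x ∈ M}, cc x * pF (fun v => GG (p (rv v)) (c v)) y ω x‖ ≤
      C * E * Nf K j * dK K ^ (5 / 4 : ℝ) * (1 + DD M y / Nf K j) ^ (1 / 2 : ℝ) *
        PP (fun v => 1 + ‖c v‖) ^ (27 / 164 : ℝ) *
          (1 + DD M y / Nf K j / PP (fun v => 1 + ‖c v‖) ^ (1 / 2 : ℝ)) ^ (3 / 4 : ℝ)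

open scoped Classical in
/-- (BI) the bound for the integral over all positions. -/
def W_BI : Prop :=
  ∀ n : ℕ, 0 < n → ∀ κ : ℝ, 0 < κ → κ ≤ 1 → ∃ C : ℝ, 0 ≤ C ∧
    ∀ (K : Type) [Field K] [NumberField K], Module.finrank ℚ K = n → ∀ (ι : Type) [Fintype ι]
    (M : ι → FI K), Reps K M → ∀ (j : Ideal (𝓞 K)) (c : InfinitePlace K → ℂ)
    (X B E : ℝ) (v : ℝ → ℂ) (cc : ι → K → ℂ) (s : Bool), j ≠ ⊥ → (∀ v, Rl (rv v) (c v)) →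
    1 ≤ X → X ^ 2 ≤ 3 ^ n * (dK K * Nf K j * PP (fun v => 1 + ‖c v‖)) → 0 ≤ B →
    Wt κ X B v → 0 ≤ E →
    (∀ i, ∀ x ∈ M i, ∀ l ∈ (j : FI K) * M i, cc i (x + l) = cc i x) →
    (∀ i, ∀ x ∈ M i, ‖cc i x‖ ≤ E) →
    ∑ i, ∫⁻ u in Fd K ×ˢ (univ : Set ℝ) ×ˢ An K,
      ENNReal.ofReal ‖∑' x : {x : K // x ∈ M i ∧ x ≠ 0}, cc i x *
        v (Ideal.absNorm (idl K (M i) x)) *
          pF (fun v => GG (pz (rv v)) (c v)) (yM K (M i) u.2.1 (zs s u.1)) (om s u.2.2) x‖ ≤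
    ENNReal.ofReal (C * B * E * (classNumber K * regulator K) * Nf K j *
      dK K ^ (13 / 8 : ℝ) * X ^ (2 * κ) * PP (fun v => 1 + ‖c v‖) ^ (27 / 164 : ℝ))

/-- (BP) the bound for the first sum. -/
def W_BP : Prop :=
  ∀ n : ℕ, 0 < n → ∀ κ : ℝ, 0 < κ → κ ≤ 1 → ∃ C : ℝ, 0 ≤ C ∧
    ∀ (K : Type) [Field K] [NumberField K], Module.finrank ℚ K = n →
    ∀ (f : Ideal (𝓞 K)), f ≠ ⊥ → ∀ (χ : HG K f) (t B : ℝ) (v : ℝ → ℂ), 0 ≤ B →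
    Wt κ (Real.sqrt (|(discr K : ℝ)| * Nf K f * Ci χ.k χ.ν t)) B v →
    ‖∑' J : NZI K, χ.ψ J.1 * v (Ideal.absNorm J.1) *
      (Ideal.absNorm J.1 : ℂ) ^ (-(t * I : ℂ))‖ ≤
    C * B * (classNumber K * regulator K) * Nf K f * dK K ^ (13 / 8 : ℝ) *
      (|(discr K : ℝ)| * Nf K f * Ci χ.k χ.ν t) ^ κ * Ci χ.k χ.ν t ^ (27 / 164 : ℝ)

/-- (BQ) the bound for the dual sum. -/
def W_BQ : Prop :=
  ∀ n : ℕ, 0 < n → ∀ κ : ℝ, 0 < κ → κ ≤ 1 → ∃ C : ℝ, 0 ≤ C ∧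
    ∀ (K : Type) [Field K] [NumberField K], Module.finrank ℚ K = n →
    ∀ (f : Ideal (𝓞 K)), f ≠ ⊥ → ∀ (D : Sys K f) (χ : HG K f) (t B : ℝ) (v : ℝ → ℂ), 0 ≤ B →
    Wt κ (Real.sqrt (|(discr K : ℝ)| * Nf K f * Ci χ.k χ.ν t)) B v →
    ‖∑' J : NZI K, cd D χ J.1 * v (Ideal.absNorm J.1) *
      (Ideal.absNorm J.1 : ℂ) ^ (t * I : ℂ)‖ ≤
    C * B * (classNumber K * regulator K) * Nf K f ^ (3 / 2 : ℝ) * dK K ^ (13 / 8 : ℝ) *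
      (|(discr K : ℝ)| * Nf K f * Ci χ.k χ.ν t) ^ κ * Ci χ.k χ.ν t ^ (27 / 164 : ℝ)

/-- (SW) the sub-Weyl bound. -/
def W_SW : Prop :=
  ∀ n : ℕ, 0 < n → ∀ ε : ℝ, 0 < ε → ∃ C : ℝ, ∀ (K : Type) [Field K] [NumberField K],
    Module.finrank ℚ K = n → ∀ (f : Ideal (𝓞 K)), f ≠ ⊥ → ∀ χ : HG K f, ∃ L : ℂ → ℂ,
    (∀ s : ℂ, 1 < s.re → L s = χ.series s) ∧
    (∀ s : ℂ, s ≠ 0 → s ≠ 1 → DifferentiableAt ℂ L s) ∧
    ((∃ I : Ideal (𝓞 K), χ.ψ I ≠ 0 ∧ χ.ψ I ≠ 1) → Differentiable ℂ L) ∧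
    ∀ t : ℝ, ‖L (1 / 2 + t * I)‖ ≤ C * |(discr K : ℝ)| ^ (5 / 2 : ℝ) *
      (Ideal.absNorm f : ℝ) ^ 2 * Ci χ.k χ.ν t ^ (27 / 164 + ε : ℝ)

end Pool.Agent.H31.SW
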