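import Pool.Agent.H31.SW.TargetsL

/-!
# A sub-Weyl bound for Hecke L-functions: tools for the local part
-/

set_option autoImplicit false
set_option linter.unusedVariables false

open NumberField NumberField.InfinitePlace MeasureTheory Set Filter Complex
open scoped Topology

namespace Pool.Agent.H31.SW

open Pool.Agent.H29.DW (dg Rl lf)

/-! ### The function `EE` -/

theorem norm_EE (z : ℂ) : ‖EE z‖ = 1 := by
  unfold EE
  rw [← Complex.ofReal_neg]
  exact Complex.norm_exp_ofReal_mul_I _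

theorem EE_zero : EE 0 = 1 := by
  unfold EE
  simp

theorem EE_add (z w : ℂ) : EE (z + w) = EE z * EE w := by
  unfold EE
  rw [← Complex.exp_add]
  congr 1
  rw [Complex.add_re]
  push_cast
  ring

theorem conj_EE (z : ℂ) : (starRingEnd ℂ) (EE z) = EE (-z) := by
  unfold EE
  rw [← Complex.exp_conj]
  congr 1
  rw [map_mul, map_neg, Complex.conj_ofReal, Complex.conj_I, Complex.neg_re]
  push_cast
  ring

theorem EE_sub (z w : ℂ) : EE (z - w) = EE z * (starRingEnd ℂ) (EE w) := by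
  rw [sub_eq_add_neg, EE_add, conj_EE]

theorem EE_ne (z : ℂ) : EE z ≠ 0 := by
  intro h
  have := norm_EE z
  rw [h, norm_zero] at this
  exact zero_ne_one this

theorem continuous_EE : Continuous EE := by
  unfold EE
  fun_prop

theorem EE_pj (r : Bool) (z w : ℂ) (hw : Rl r w) : EE (pj r z * w) = EE (z * w) := by
  unfold EE pj
  cases r
  · simp
  · have h : w.im = 0 := hw rfl
    simp [h]

/-! ### Real and complex -/

theorem pj_false (z : ℂ) : pj false z = z := by simp [pj]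

theorem pj_true (z : ℂ) : pj true z = ((z.re : ℝ) : ℂ) := by simp [pj]

theorem Rl_pj (r : Bool) (z : ℂ) : Rl r (pj r z) := by
  intro h
  subst h
  simp [pj]

theorem pj_of_Rl {r : Bool} {z : ℂ} (h : Rl r z) : pj r z = z := by
  cases r
  · simp [pj]
  · have h1 : z.im = 0 := h rfl
    apply Complex.ext <;> simp [pj, h1]

theorem pj_sub (r : Bool) (z w : ℂ) : pj r (z - w) = pj r z - pj r w := by
  cases r <;> simp [pj]

theorem pj_add (r : Bool) (z w : ℂ) : pj r (z + w) = pj r z + pj r w := by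
  cases r <;> simp [pj]

theorem norm_pj_le (r : Bool) (z : ℂ) : ‖pj r z‖ ≤ ‖z‖ := by
  cases r
  · simp [pj]
  · simpa [pj] using Complex.abs_re_le_norm z

theorem continuous_pj (r : Bool) : Continuous (pj r) := by
  unfold pj
  cases r
  · simp only [Bool.false_eq_true, if_false]
    exact continuous_id'
  · simp only [if_true]
    fun_prop

theorem pj_div (r : Bool) (z Λ : ℂ) (h : Rl r Λ) : pj r (z / Λ) = pj r z / Λ := by
  cases r
  · simp [pj]
  · have h1 : Λ.im = 0 := h rfl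
    have h2 : Λ = ((Λ.re : ℝ) : ℂ) := by apply Complex.ext <;> simp [h1]
    rw [h2]
    simp only [pj, if_true, Complex.div_ofReal_re]
    push_cast
    rfl

theorem Rl_false (z : ℂ) : Rl false z := by
  intro h
  cases h

theorem Rl_ofReal (r : Bool) (x : ℝ) : Rl r (x : ℂ) := by
  intro _
  simp

theorem Rl_zero (r : Bool) : Rl r 0 := by
  intro _
  simp

theorem Rl_one (r : Bool) : Rl r 1 := by
  intro _
  simp

theorem Rl_add {r : Bool} {z w : ℂ} (hz : Rl r z) (hw : Rl r w) : Rl r (z + w) := by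
  intro h
  rw [Complex.add_im, hz h, hw h, add_zero]

theorem Rl_neg {r : Bool} {z : ℂ} (hz : Rl r z) : Rl r (-z) := by
  intro h
  rw [Complex.neg_im, hz h, neg_zero]

theorem Rl_sub {r : Bool} {z w : ℂ} (hz : Rl r z) (hw : Rl r w) : Rl r (z - w) := by
  intro h
  rw [Complex.sub_im, hz h, hw h, sub_zero]

theorem Rl_mul {r : Bool} {z w : ℂ} (hz : Rl r z) (hw : Rl r w) : Rl r (z * w) := by
  intro h
  rw [Complex.mul_im, hz h, hw h]
  ring

theorem Rl_inv {r : Bool} {z : ℂ} (hz : Rl r z) : Rl r z⁻¹ := by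
  intro h
  rw [Complex.inv_im, hz h, neg_zero, zero_div]

theorem Rl_div {r : Bool} {z w : ℂ} (hz : Rl r z) (hw : Rl r w) : Rl r (z / w) := by
  rw [div_eq_mul_inv]
  exact Rl_mul hz (Rl_inv hw)

theorem Rl_pow {r : Bool} {z : ℂ} (hz : Rl r z) (n : ℕ) : Rl r (z ^ n) := by
  induction n with
  | zero => simpa using Rl_one r
  | succ n ih =>
    rw [pow_succ]
    exact Rl_mul ih hz

/-! ### Partial derivatives -/

theorem HD.continuousAt {F F₁ F₂ : ℂ → ℂ} {z : ℂ} (h : HD F F₁ F₂ z) : ContinuousAt F z :=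
  HasFDerivAt.continuousAt h

theorem HD.differentiableAt {F F₁ F₂ : ℂ → ℂ} {z : ℂ} (h : HD F F₁ F₂ z) :
    DifferentiableAt ℝ F z := HasFDerivAt.differentiableAt h

theorem HD.fderiv {F F₁ F₂ : ℂ → ℂ} {z : ℂ} (h : HD F F₁ F₂ z) (d : ℂ) :
    _root_.fderiv ℝ F z d = ((d.re : ℝ) : ℂ) * F₁ z + ((d.im : ℝ) : ℂ) * F₂ z := by
  have h1 := HasFDerivAt.fderiv h
  rw [h1]
  simp

theorem HD.unique {F F₁ F₂ G₁ G₂ : ℂ → ℂ} {z : ℂ} (h : HD F F₁ F₂ z) (h' : HD F G₁ G₂ z) :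
    F₁ z = G₁ z ∧ F₂ z = G₂ z := by
  have h1 := h.fderiv 1
  have h2 := h'.fderiv 1
  have h3 := h.fderiv I
  have h4 := h'.fderiv I
  rw [h1] at h2
  rw [h3] at h4
  simp at h2 h4
  exact ⟨h2, h4⟩

/-- two linear maps `ℂ → ℂ` which agree at `1` and at `I` -/
theorem clm_ext {f g : ℂ →L[ℝ] ℂ} (h1 : f 1 = g 1) (h2 : f I = g I) : f = g := by
  apply ContinuousLinearMap.ext
  intro d
  have h3 : d = d.re • (1 : ℂ) + d.im • I := by
    apply Complex.ext
    · simp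
    · simp
  rw [h3, map_add, map_add, map_smul, map_smul, map_smul, map_smul, h1, h2]

theorem hd_of_fderiv {F : ℂ → ℂ} {z : ℂ} (h : DifferentiableAt ℝ F z) :
    HD F (fun z => _root_.fderiv ℝ F z 1) (fun z => _root_.fderiv ℝ F z I) z := by
  unfold HD
  have h1 := h.hasFDerivAt
  have h2 : _root_.fderiv ℝ F z = Complex.reCLM.smulRight (_root_.fderiv ℝ F z 1) +
      Complex.imCLM.smulRight (_root_.fderiv ℝ F z I) := by
    apply clm_ext
    · simp
    · simp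
  rw [h2] at h1
  exact h1

theorem hd_of_eq {F F₁ F₂ G₁ G₂ : ℂ → ℂ} {z : ℂ} (h : HD F F₁ F₂ z) (h1 : F₁ z = G₁ z)
    (h2 : F₂ z = G₂ z) : HD F G₁ G₂ z := by
  unfold HD at h ⊢
  rwa [h1, h2] at h

theorem HD.congr {F G F₁ F₂ : ℂ → ℂ} {z : ℂ} (h : HD F F₁ F₂ z) (hG : G =ᶠ[𝓝 z] F) :
    HD G F₁ F₂ z := HasFDerivAt.congr_of_eventuallyEq h hG

theorem hd_const (c z : ℂ) : HD (fun _ => c) (fun _ => 0) (fun _ => 0) z := by
  unfold HD
  have h := hasFDerivAt_const (𝕜 := ℝ) c z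
  convert h using 1
  ext d <;> simp


theorem hd_iff {F F₁ F₂ : ℂ → ℂ} {z : ℂ} {f : ℂ →L[ℝ] ℂ} (h : HasFDerivAt F f z)
    (h1 : f 1 = F₁ z) (h2 : f I = F₂ z) : HD F F₁ F₂ z := by
  unfold HD
  have : f = Complex.reCLM.smulRight (F₁ z) + Complex.imCLM.smulRight (F₂ z) := by
    apply clm_ext
    · simp [h1]
    · simp [h2]
  rwa [this] at h

theorem HD.add {F F₁ F₂ G G₁ G₂ : ℂ → ℂ} {z : ℂ} (h : HD F F₁ F₂ z) (h' : HD G G₁ G₂ z) :
    HD (fun z => F z + G z) (fun z => F₁ z + G₁ z) (fun z => F₂ z + G₂ z) z := by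
  refine hd_iff (HasFDerivAt.add h h') ?_ ?_ <;> simp

theorem HD.neg {F F₁ F₂ : ℂ → ℂ} {z : ℂ} (h : HD F F₁ F₂ z) :
    HD (fun z => -F z) (fun z => -F₁ z) (fun z => -F₂ z) z := by
  refine hd_iff (HasFDerivAt.neg h) ?_ ?_ <;> simp

theorem HD.sub {F F₁ F₂ G G₁ G₂ : ℂ → ℂ} {z : ℂ} (h : HD F F₁ F₂ z) (h' : HD G G₁ G₂ z) :
    HD (fun z => F z - G z) (fun z => F₁ z - G₁ z) (fun z => F₂ z - G₂ z) z := by
  refine hd_iff (HasFDerivAt.sub h h') ?_ ?_ <;> simp

theorem HD.mul {F F₁ F₂ G G₁ G₂ : ℂ → ℂ} {z : ℂ} (h : HD F F₁ F₂ z) (h' : HD G G₁ G₂ z) :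
    HD (fun z => F z * G z) (fun z => F₁ z * G z + F z * G₁ z)
      (fun z => F₂ z * G z + F z * G₂ z) z := by
  refine hd_iff (HasFDerivAt.mul h h') ?_ ?_
  · simp
    ring
  · simp
    ring

theorem HD.const_mul {F F₁ F₂ : ℂ → ℂ} {z : ℂ} (h : HD F F₁ F₂ z) (c : ℂ) :
    HD (fun z => c * F z) (fun z => c * F₁ z) (fun z => c * F₂ z) z := by
  refine hd_of_eq ((hd_const c z).mul h) ?_ ?_ <;> simp

theorem HD.conj {F F₁ F₂ : ℂ → ℂ} {z : ℂ} (h : HD F F₁ F₂ z) :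
    HD (fun z => (starRingEnd ℂ) (F z)) (fun z => (starRingEnd ℂ) (F₁ z))
      (fun z => (starRingEnd ℂ) (F₂ z)) z := by
  have h1 : HasFDerivAt (fun z : ℂ => (starRingEnd ℂ) z)
      (Complex.conjCLE : ℂ →L[ℝ] ℂ) (F z) := Complex.conjCLE.hasFDerivAt
  refine hd_iff (HasFDerivAt.comp z h1 h) ?_ ?_ <;> simp

/-- composition with `z ↦ α z + β` -/
theorem HD.comp_affine {F F₁ F₂ : ℂ → ℂ} {α β z : ℂ} (h : HD F F₁ F₂ (α * z + β)) :
    HD (fun z => F (α * z + β)) (fun z => (α.re : ℂ) * F₁ (α * z + β) + (α.im : ℂ) * F₂ (α * z + β))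
      (fun z => (-α.im : ℂ) * F₁ (α * z + β) + (α.re : ℂ) * F₂ (α * z + β)) z := by
  have h1 : HasDerivAt (fun z : ℂ => α * z + β) α z := by
    simpa using ((hasDerivAt_id z).const_mul α).add_const β
  have h2 := h1.hasFDerivAt.restrictScalars ℝ
  refine hd_iff (HasFDerivAt.comp z h h2) ?_ ?_ <;> simp

/-- translation -/
theorem HD.comp_add {F F₁ F₂ : ℂ → ℂ} {b z : ℂ} (h : HD F F₁ F₂ (z + b)) :
    HD (fun z => F (z + b)) (fun z => F₁ (z + b)) (fun z => F₂ (z + b)) z := by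
  have h1 : HasDerivAt (fun z : ℂ => z + b) 1 z := (hasDerivAt_id z).add_const b
  have h2 := h1.hasFDerivAt.restrictScalars ℝ
  refine hd_iff (HasFDerivAt.comp z h h2) ?_ ?_ <;> simp

/-- holomorphic functions -/
theorem hd_hol {f f' : ℂ → ℂ} {z : ℂ} (h : HasDerivAt f (f' z) z) :
    HD f f' (fun z => I * f' z) z := by
  have h2 := h.hasFDerivAt.restrictScalars ℝ
  refine hd_iff h2 ?_ ?_ <;> simp

/-- the real part of a holomorphic function -/
theorem hd_re {f f' : ℂ → ℂ} {z : ℂ} (h : HasDerivAt f (f' z) z) :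
    HD (fun z => (((f z).re : ℝ) : ℂ)) (fun z => (((f' z).re : ℝ) : ℂ))
      (fun z => ((-(f' z).im : ℝ) : ℂ)) z := by
  have h2 := h.hasFDerivAt.restrictScalars ℝ
  have h3 : HasFDerivAt (fun z : ℂ => ((z.re : ℝ) : ℂ))
      (Complex.ofRealCLM.comp Complex.reCLM) (f z) :=
    (Complex.ofRealCLM.comp Complex.reCLM).hasFDerivAt
  refine hd_iff (HasFDerivAt.comp z h3 h2) ?_ ?_ <;> simp

/-- the exponential of a holomorphic phase -/
theorem hd_EE {Ψ p : ℂ → ℂ} {z : ℂ} (h : HasDerivAt Ψ (p z) z) :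
    HD (fun z => EE (Ψ z)) (fun z => -I * ((p z).re : ℝ) * EE (Ψ z))
      (fun z => I * ((p z).im : ℝ) * EE (Ψ z)) z := by
  have h1 := hd_re h
  have h2 : HasDerivAt (fun w : ℂ => cexp (-w * I)) (cexp (-(((Ψ z).re : ℝ) : ℂ) * I) * (-1 * I))
      (((Ψ z).re : ℝ) : ℂ) := by
    have h3 : HasDerivAt (fun w : ℂ => -w * I) (-1 * I) (((Ψ z).re : ℝ) : ℂ) :=
      ((hasDerivAt_id _).neg).mul_const I
    exact h3.cexp
  have h3 := h2.hasFDerivAt.restrictScalars ℝ
  have h4 := HasFDerivAt.comp (g := fun w : ℂ => cexp (-w * I)) z h3 h1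
  refine hd_iff h4 ?_ ?_
  · simp [EE]
    ring
  · simp [EE]
    ring

/-! ### The classes `DB` -/

theorem DB.norm_le {n : ℕ} {U : ℂ → ℝ} {S : Set ℂ} {F : ℂ → ℂ} (h : DB n U S F) {z : ℂ}
    (hz : z ∈ S) : ‖F z‖ ≤ U z := by
  cases n with
  | zero => exact h.2 z hz
  | succ n => exact h.1 z hz

theorem DB.continuousOn {n : ℕ} {U : ℂ → ℝ} {S : Set ℂ} {F : ℂ → ℂ} (h : DB n U S F) :
    ContinuousOn F S := by
  cases n with
  | zero => exact h.1
  | succ n =>
    obtain ⟨-, F₁, F₂, h1, -⟩ := h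
    exact fun z hz => (h1 z hz).continuousAt.continuousWithinAt

theorem DB.mono {n : ℕ} {U V : ℂ → ℝ} {S S' : Set ℂ} {F : ℂ → ℂ} (h : DB n U S F)
    (hS : S' ⊆ S) (hU : ∀ z ∈ S', U z ≤ V z) : DB n V S' F := by
  induction n generalizing F with
  | zero => exact ⟨h.1.mono hS, fun z hz => (h.2 z (hS hz)).trans (hU z hz)⟩
  | succ n ih =>
    obtain ⟨h0, F₁, F₂, h1, h2, h3⟩ := h
    exact ⟨fun z hz => (h0 z (hS hz)).trans (hU z hz), F₁, F₂, fun z hz => h1 z (hS hz),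
      ih h2, ih h3⟩

theorem DB.of_succ {n : ℕ} {U : ℂ → ℝ} {S : Set ℂ} {F : ℂ → ℂ} (h : DB (n + 1) U S F) :
    DB n U S F := by
  induction n generalizing F with
  | zero => exact ⟨DB.continuousOn h, fun z hz => DB.norm_le h hz⟩
  | succ n ih =>
    obtain ⟨h0, F₁, F₂, h1, h2, h3⟩ := h
    exact ⟨h0, F₁, F₂, h1, ih h2, ih h3⟩

theorem DB.of_le {n m : ℕ} {U : ℂ → ℝ} {S : Set ℂ} {F : ℂ → ℂ} (h : DB m U S F) (hn : n ≤ m) :
    DB n U S F := by
  induction m with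
  | zero =>
    obtain rfl : n = 0 := Nat.le_zero.1 hn
    exact h
  | succ m ih =>
    rcases Nat.lt_or_ge n (m + 1) with h1 | h1
    · exact ih h.of_succ (Nat.lt_succ_iff.1 h1)
    · obtain rfl : n = m + 1 := le_antisymm hn h1
      exact h

theorem DB.congr {n : ℕ} {U : ℂ → ℝ} {S : Set ℂ} {F G : ℂ → ℂ} (hS : IsOpen S)
    (h : DB n U S F) (hG : ∀ z ∈ S, G z = F z) : DB n U S G := by
  cases n with
  | zero => exact ⟨h.1.congr hG, fun z hz => by rw [hG z hz]; exact h.2 z hz⟩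
  | succ n =>
    obtain ⟨h0, F₁, F₂, h1, h2, h3⟩ := h
    refine ⟨fun z hz => by rw [hG z hz]; exact h0 z hz, F₁, F₂, fun z hz => ?_, h2, h3⟩
    refine (h1 z hz).congr ?_
    filter_upwards [hS.mem_nhds hz] with w hw using hG w hw

theorem DB.zero (n : ℕ) (U : ℂ → ℝ) (S : Set ℂ) (hU : ∀ z ∈ S, 0 ≤ U z) :
    DB n U S (fun _ => 0) := by
  induction n with
  | zero => exact ⟨continuousOn_const, fun z hz => by simpa using hU z hz⟩
  | succ n ih =>
    exact ⟨fun z hz => by simpa using hU z hz, fun _ => 0, fun _ => 0,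
      fun z _ => hd_const 0 z, ih, ih⟩

theorem DB.const (n : ℕ) (c : ℂ) (U : ℂ → ℝ) (S : Set ℂ) (hU : ∀ z ∈ S, ‖c‖ ≤ U z) :
    DB n U S (fun _ => c) := by
  cases n with
  | zero => exact ⟨continuousOn_const, hU⟩
  | succ n =>
    have h0 := DB.zero n U S (fun z hz => (norm_nonneg c).trans (hU z hz))
    exact ⟨hU, fun _ => 0, fun _ => 0, fun z _ => hd_const c z, h0, h0⟩

theorem DB.add {n : ℕ} {U V : ℂ → ℝ} {S : Set ℂ} {F G : ℂ → ℂ} (h : DB n U S F)
    (h' : DB n V S G) : DB n (fun z => U z + V z) S (fun z => F z + G z) := by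
  induction n generalizing F G with
  | zero => exact ⟨h.1.add h'.1, fun z hz => (norm_add_le _ _).trans
      (add_le_add (h.2 z hz) (h'.2 z hz))⟩
  | succ n ih =>
    obtain ⟨h0, F₁, F₂, h1, h2, h3⟩ := h
    obtain ⟨k0, G₁, G₂, k1, k2, k3⟩ := h'
    exact ⟨fun z hz => (norm_add_le _ _).trans (add_le_add (h0 z hz) (k0 z hz)), _, _,
      fun z hz => (h1 z hz).add (k1 z hz), ih h2 k2, ih h3 k3⟩

theorem DB.const_mul {n : ℕ} {U : ℂ → ℝ} {S : Set ℂ} {F : ℂ → ℂ} (h : DB n U S F) (c : ℂ) :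
    DB n (fun z => ‖c‖ * U z) S (fun z => c * F z) := by
  induction n generalizing F with
  | zero => exact ⟨continuousOn_const.mul h.1, fun z hz => by
      rw [norm_mul]
      exact mul_le_mul_of_nonneg_left (h.2 z hz) (norm_nonneg _)⟩
  | succ n ih =>
    obtain ⟨h0, F₁, F₂, h1, h2, h3⟩ := h
    exact ⟨fun z hz => by
      rw [norm_mul]
      exact mul_le_mul_of_nonneg_left (h0 z hz) (norm_nonneg _), _, _,
      fun z hz => (h1 z hz).const_mul c, ih h2, ih h3⟩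

theorem DB.neg {n : ℕ} {U : ℂ → ℝ} {S : Set ℂ} {F : ℂ → ℂ} (h : DB n U S F) :
    DB n U S (fun z => -F z) := by
  induction n generalizing F with
  | zero => exact ⟨h.1.neg, fun z hz => by rw [norm_neg]; exact h.2 z hz⟩
  | succ n ih =>
    obtain ⟨h0, F₁, F₂, h1, h2, h3⟩ := h
    exact ⟨fun z hz => by rw [norm_neg]; exact h0 z hz, _, _, fun z hz => (h1 z hz).neg,
      ih h2, ih h3⟩

theorem DB.conj {n : ℕ} {U : ℂ → ℝ} {S : Set ℂ} {F : ℂ → ℂ} (h : DB n U S F) :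
    DB n U S (fun z => (starRingEnd ℂ) (F z)) := by
  induction n generalizing F with
  | zero => exact ⟨Complex.continuous_conj.comp_continuousOn h.1, fun z hz => by
      rw [RCLike.norm_conj]
      exact h.2 z hz⟩
  | succ n ih =>
    obtain ⟨h0, F₁, F₂, h1, h2, h3⟩ := h
    exact ⟨fun z hz => by rw [RCLike.norm_conj]; exact h0 z hz, _, _,
      fun z hz => (h1 z hz).conj, ih h2, ih h3⟩

theorem DB.mul {n : ℕ} {U V : ℂ → ℝ} {S : Set ℂ} {F G : ℂ → ℂ} (h : DB n U S F)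
    (h' : DB n V S G) : DB n (fun z => 2 ^ n * (U z * V z)) S (fun z => F z * G z) := by
  induction n generalizing F G with
  | zero => exact ⟨h.1.mul h'.1, fun z hz => by
      simp only [pow_zero, one_mul, norm_mul]
      exact mul_le_mul (h.2 z hz) (h'.2 z hz) (norm_nonneg _)
        ((norm_nonneg _).trans (h.2 z hz))⟩
  | succ n ih =>
    have hF := h
    have hG := h'
    obtain ⟨h0, F₁, F₂, h1, h2, h3⟩ := h
    obtain ⟨k0, G₁, G₂, k1, k2, k3⟩ := h'
    have e : ∀ z ∈ S, 2 ^ n * (U z * V z) + 2 ^ n * (U z * V z) = 2 ^ (n + 1) * (U z * V z) := by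
      intro z _
      rw [pow_succ]
      ring
    refine ⟨fun z hz => ?_, _, _, fun z hz => (h1 z hz).mul (k1 z hz), ?_, ?_⟩
    · rw [norm_mul]
      have a0 := (norm_nonneg _).trans (h0 z hz)
      have b0 := (norm_nonneg _).trans (k0 z hz)
      calc ‖F z‖ * ‖G z‖ ≤ U z * V z :=
            mul_le_mul (h0 z hz) (k0 z hz) (norm_nonneg _) a0
        _ ≤ 2 ^ (n + 1) * (U z * V z) :=
            le_mul_of_one_le_left (mul_nonneg a0 b0) (one_le_pow₀ (by norm_num))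
    · exact (DB.add (ih h2 hG.of_succ) (ih hF.of_succ k2)).mono subset_rfl
        (fun z hz => (e z hz).le)
    · exact (DB.add (ih h3 hG.of_succ) (ih hF.of_succ k3)).mono subset_rfl
        (fun z hz => (e z hz).le)

theorem DB.comp_add {n : ℕ} {U : ℂ → ℝ} {S S' : Set ℂ} {F : ℂ → ℂ} (h : DB n U S F) (b : ℂ)
    (hS : ∀ z ∈ S', z + b ∈ S) : DB n (fun z => U (z + b)) S' (fun z => F (z + b)) := by
  induction n generalizing F with
  | zero => exact ⟨h.1.comp (by fun_prop) hS, fun z hz => h.2 _ (hS z hz)⟩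
  | succ n ih =>
    obtain ⟨h0, F₁, F₂, h1, h2, h3⟩ := h
    exact ⟨fun z hz => h0 _ (hS z hz), _, _, fun z hz => (h1 _ (hS z hz)).comp_add,
      ih h2, ih h3⟩

/-- composition with `z ↦ α z + β`, `|α| ≤ a`, `1 ≤ a` -/
theorem DB.comp_affine {n : ℕ} {U : ℂ → ℝ} {S S' : Set ℂ} {F : ℂ → ℂ} (h : DB n U S F)
    (α β : ℂ) (a : ℝ) (ha : 1 ≤ a) (hα : ‖α‖ ≤ a) (hS : ∀ z ∈ S', α * z + β ∈ S) :
    DB n (fun z => (2 * a) ^ n * U (α * z + β)) S' (fun z => F (α * z + β)) := by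
  induction n generalizing F with
  | zero => exact ⟨h.1.comp (by fun_prop) hS, fun z hz => by
      simp only [pow_zero, one_mul]
      exact h.2 _ (hS z hz)⟩
  | succ n ih =>
    obtain ⟨h0, F₁, F₂, h1, h2, h3⟩ := h
    have hre : ‖((α.re : ℝ) : ℂ)‖ ≤ a := by
      rw [Complex.norm_real]
      exact (Complex.abs_re_le_norm α).trans hα
    have him : ‖((α.im : ℝ) : ℂ)‖ ≤ a := by
      rw [Complex.norm_real]
      exact (Complex.abs_im_le_norm α).trans hα
    have hU0 : ∀ z ∈ S', 0 ≤ U (α * z + β) := fun z hz =>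
      (norm_nonneg _).trans (h0 _ (hS z hz))
    have key : ∀ (c d : ℂ) (G₁ G₂ : ℂ → ℂ), ‖c‖ ≤ a → ‖d‖ ≤ a →
        DB n (fun z => (2 * a) ^ n * U (α * z + β)) S' G₁ →
        DB n (fun z => (2 * a) ^ n * U (α * z + β)) S' G₂ →
        DB n (fun z => (2 * a) ^ (n + 1) * U (α * z + β)) S' (fun z => c * G₁ z + d * G₂ z) := by
      intro c d G₁ G₂ hc hd k1 k2
      refine (DB.add (k1.const_mul c) (k2.const_mul d)).mono subset_rfl fun z hz => ?_
      have h5 := hU0 z hz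
      calc ‖c‖ * ((2 * a) ^ n * U (α * z + β)) + ‖d‖ * ((2 * a) ^ n * U (α * z + β))
          ≤ a * ((2 * a) ^ n * U (α * z + β)) + a * ((2 * a) ^ n * U (α * z + β)) := by
            gcongr
        _ = (2 * a) ^ (n + 1) * U (α * z + β) := by
            rw [pow_succ]
            ring
    refine ⟨fun z hz => ?_, _, _, fun z hz => (h1 _ (hS z hz)).comp_affine, ?_, ?_⟩
    · refine (h0 _ (hS z hz)).trans (le_mul_of_one_le_left (hU0 z hz) (one_le_pow₀ ?_))
      linarith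
    · exact key _ _ _ _ hre him (ih h2) (ih h3)
    · exact key (-((α.im : ℝ) : ℂ)) _ _ _ (by rwa [norm_neg]) hre (ih h2) (ih h3)

/-- gluing -/
theorem DB.union {n : ℕ} {U : ℂ → ℝ} {S S' : Set ℂ} {F : ℂ → ℂ} (hS : IsOpen S)
    (hS' : IsOpen S') (h : DB n U S F) (h' : DB n U S' F) : DB n U (S ∪ S') F := by
  classical
  induction n generalizing F with
  | zero =>
    refine ⟨?_, fun z hz => ?_⟩
    · exact h.1.union_of_isOpen h'.1 hS hS'
    · rcases hz with hz | hz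
      · exact h.2 z hz
      · exact h'.2 z hz
  | succ n ih =>
    obtain ⟨h0, F₁, F₂, h1, h2, h3⟩ := h
    obtain ⟨k0, G₁, G₂, k1, k2, k3⟩ := h'
    have e1 : ∀ z ∈ S', (if z ∈ S then F₁ z else G₁ z) = G₁ z := by
      intro z hz
      by_cases hzS : z ∈ S
      · rw [if_pos hzS]
        exact ((h1 z hzS).unique (k1 z hz)).1
      · rw [if_neg hzS]
    have e2 : ∀ z ∈ S', (if z ∈ S then F₂ z else G₂ z) = G₂ z := by
      intro z hz
      by_cases hzS : z ∈ S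
      · rw [if_pos hzS]
        exact ((h1 z hzS).unique (k1 z hz)).2
      · rw [if_neg hzS]
    refine ⟨fun z hz => ?_, fun z => if z ∈ S then F₁ z else G₁ z,
      fun z => if z ∈ S then F₂ z else G₂ z, fun z hz => ?_, ?_, ?_⟩
    · rcases hz with hz | hz
      · exact h0 z hz
      · exact k0 z hz
    · by_cases hzS : z ∈ S
      · exact hd_of_eq (h1 z hzS) (if_pos hzS).symm (if_pos hzS).symm
      · have hz' : z ∈ S' := hz.resolve_left hzS
        exact hd_of_eq (k1 z hz') (if_neg hzS).symm (if_neg hzS).symm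
    · exact ih (h2.congr hS fun z hz => if_pos hz) (k2.congr hS' e1)
    · exact ih (h3.congr hS fun z hz => if_pos hz) (k3.congr hS' e2)

/-- a function which vanishes on an open set -/
theorem DB.of_zero {n : ℕ} {U : ℂ → ℝ} {S : Set ℂ} {F : ℂ → ℂ} (hS : IsOpen S)
    (hF : ∀ z ∈ S, F z = 0) (hU : ∀ z ∈ S, 0 ≤ U z) : DB n U S F :=
  (DB.zero n U S hU).congr hS hF

/-! ### The classes `DS` -/

theorem ind_of_mem {w₀ z : ℂ} {ρ G : ℝ} (h : ‖z - w₀‖ ≤ ρ) : ind w₀ ρ G z = G := if_pos h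

theorem ind_of_not_mem {w₀ z : ℂ} {ρ G : ℝ} (h : ρ < ‖z - w₀‖) : ind w₀ ρ G z = 0 :=
  if_neg (not_le.2 h)

theorem ind_nonneg {w₀ z : ℂ} {ρ G : ℝ} (h : 0 ≤ G) : 0 ≤ ind w₀ ρ G z := by
  unfold ind
  split_ifs
  · exact h
  · exact le_rfl

theorem ind_le {w₀ z : ℂ} {ρ G : ℝ} (h : 0 ≤ G) : ind w₀ ρ G z ≤ G := by
  unfold ind
  split_ifs
  · exact le_rfl
  · exact h

theorem ind_mono {w₀ z : ℂ} {ρ ρ' G G' : ℝ} (hG : G ≤ G') (hG' : 0 ≤ G') (hρ : ρ ≤ ρ') :
    ind w₀ ρ G z ≤ ind w₀ ρ' G' z := by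
  unfold ind
  split_ifs with h1 h2
  · exact hG
  · exact absurd (h1.trans hρ) h2
  · exact hG'
  · exact le_rfl

theorem ind_mul (w₀ z : ℂ) (ρ c G : ℝ) : c * ind w₀ ρ G z = ind w₀ ρ (c * G) z := by
  unfold ind
  split_ifs
  · rfl
  · exact mul_zero _

theorem DS.eq_zero {n : ℕ} {G ρ : ℝ} {w₀ : ℂ} {F : ℂ → ℂ} (h : DS n G w₀ ρ F) {z : ℂ}
    (hz : ρ < ‖z - w₀‖) : F z = 0 := by
  have h1 := DB.norm_le h (mem_univ z)
  rw [ind_of_not_mem hz] at h1
  exact norm_le_zero_iff.1 h1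

theorem DS.norm_le {n : ℕ} {G ρ : ℝ} {w₀ : ℂ} {F : ℂ → ℂ} (hG : 0 ≤ G) (h : DS n G w₀ ρ F)
    (z : ℂ) : ‖F z‖ ≤ G := (DB.norm_le h (mem_univ z)).trans (ind_le hG)

theorem DS.continuous {n : ℕ} {G ρ : ℝ} {w₀ : ℂ} {F : ℂ → ℂ} (h : DS n G w₀ ρ F) :
    Continuous F := continuousOn_univ.1 (DB.continuousOn h)

theorem DS.mono {n : ℕ} {G G' ρ ρ' : ℝ} {w₀ : ℂ} {F : ℂ → ℂ} (h : DS n G w₀ ρ F) (hG : G ≤ G')
    (hG' : 0 ≤ G') (hρ : ρ ≤ ρ') : DS n G' w₀ ρ' F :=
  DB.mono h subset_rfl fun _ _ => ind_mono hG hG' hρ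

theorem DS.of_le {n m : ℕ} {G ρ : ℝ} {w₀ : ℂ} {F : ℂ → ℂ} (h : DS m G w₀ ρ F) (hn : n ≤ m) :
    DS n G w₀ ρ F := DB.of_le h hn

theorem DS.const_mul {n : ℕ} {G ρ : ℝ} {w₀ : ℂ} {F : ℂ → ℂ} (h : DS n G w₀ ρ F) (c : ℂ) :
    DS n (‖c‖ * G) w₀ ρ (fun z => c * F z) :=
  (DB.const_mul h c).mono subset_rfl fun z _ => (ind_mul w₀ z ρ ‖c‖ G).le

theorem DS.hasCompactSupport {n : ℕ} {G ρ : ℝ} {w₀ : ℂ} {F : ℂ → ℂ} (h : DS n G w₀ ρ F) :
    HasCompactSupport F := by
  refine HasCompactSupport.intro (isCompact_closedBall w₀ ρ) fun z hz => h.eq_zero ?_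
  rw [Metric.mem_closedBall, dist_eq_norm, not_le] at hz
  exact hz

/-- the product of a function in `DS` with a function which is defined near its support -/
theorem DS.mul_DB {n : ℕ} {G ρ : ℝ} {w₀ : ℂ} {S : Set ℂ} {U : ℂ → ℝ} {F V : ℂ → ℂ}
    (h : DS n G w₀ ρ F) (hV : DB n U S V) (hS : IsOpen S)
    (hsub : Metric.closedBall w₀ ρ ⊆ S) :
    DB n (fun z => 2 ^ n * (ind w₀ ρ G z * (open scoped Classical in if z ∈ S then U z else 0)))
      univ (fun z => F z * V z) := by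
  classical
  have hopen : IsOpen (Metric.closedBall w₀ ρ)ᶜ := Metric.isClosed_closedBall.isOpen_compl
  have h1 : DB n (fun z => 2 ^ n * (ind w₀ ρ G z * (if z ∈ S then U z else 0))) S
      (fun z => F z * V z) := by
    have h2 := DB.mul (DB.mono h (subset_univ S) (fun _ _ => le_rfl)) hV
    refine h2.mono subset_rfl fun z hz => ?_
    rw [if_pos hz]
  have h2 : DB n (fun z => 2 ^ n * (ind w₀ ρ G z * (if z ∈ S then U z else 0)))
      (Metric.closedBall w₀ ρ)ᶜ (fun z => F z * V z) := by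
    refine DB.of_zero hopen (fun z hz => ?_) (fun z hz => ?_)
    · have hz' : ρ < ‖z - w₀‖ := by
        rw [mem_compl_iff, Metric.mem_closedBall, dist_eq_norm, not_le] at hz
        exact hz
      rw [h.eq_zero hz', zero_mul]
    · have hz' : ρ < ‖z - w₀‖ := by
        rw [mem_compl_iff, Metric.mem_closedBall, dist_eq_norm, not_le] at hz
        exact hz
      rw [ind_of_not_mem hz', zero_mul, mul_zero]
  have h3 := DB.union hS hopen h1 h2
  have h4 : S ∪ (Metric.closedBall w₀ ρ)ᶜ = univ := by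
    rw [eq_univ_iff_forall]
    intro z
    by_cases hz : z ∈ Metric.closedBall w₀ ρ
    · exact Or.inl (hsub hz)
    · exact Or.inr hz
  rwa [h4] at h3

/-- the same with a constant bound -/
theorem DS.mul_DB' {n : ℕ} {G ρ W : ℝ} {w₀ : ℂ} {S : Set ℂ} {F V : ℂ → ℂ}
    (h : DS n G w₀ ρ F) (hV : DB n (fun _ => W) S V) (hS : IsOpen S)
    (hsub : Metric.closedBall w₀ ρ ⊆ S) : DS n (2 ^ n * (G * W)) w₀ ρ (fun z => F z * V z) := by
  classical
  refine (h.mul_DB hV hS hsub).mono subset_rfl fun z _ => ?_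
  by_cases hz : ‖z - w₀‖ ≤ ρ
  · have hzS : z ∈ S := hsub (by rw [Metric.mem_closedBall, dist_eq_norm]; exact hz)
    rw [ind_of_mem hz, ind_of_mem hz, if_pos hzS]
  · rw [ind_of_not_mem (not_le.1 hz), ind_of_not_mem (not_le.1 hz), zero_mul, mul_zero]

theorem DS.add {n : ℕ} {G G' ρ : ℝ} {w₀ : ℂ} {F F' : ℂ → ℂ} (h : DS n G w₀ ρ F)
    (h' : DS n G' w₀ ρ F') : DS n (G + G') w₀ ρ (fun z => F z + F' z) := by
  refine (DB.add h h').mono subset_rfl fun z _ => ?_
  unfold ind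
  split_ifs <;> simp

theorem DS.mul {n : ℕ} {G G' ρ ρ' : ℝ} {w₀ w₁ : ℂ} {F F' : ℂ → ℂ} (hG : 0 ≤ G) (hG' : 0 ≤ G')
    (h : DS n G w₀ ρ F) (h' : DS n G' w₁ ρ' F') :
    DS n (2 ^ n * (G * G')) w₀ ρ (fun z => F z * F' z) := by
  refine (DB.mul h h').mono subset_rfl fun z _ => ?_
  rw [← ind_mul]
  refine mul_le_mul_of_nonneg_left ?_ (by positivity)
  rw [mul_comm G G', ← ind_mul, mul_comm]
  exact mul_le_mul_of_nonneg_right (ind_le hG') (ind_nonneg hG)

/-- the partial derivatives of a function in `DS` -/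
theorem DS.succ {n : ℕ} {G ρ : ℝ} {w₀ : ℂ} {F : ℂ → ℂ} (h : DS (n + 1) G w₀ ρ F) :
    ∃ F₁ F₂ : ℂ → ℂ, (∀ z, HD F F₁ F₂ z) ∧ DS n G w₀ ρ F₁ ∧ DS n G w₀ ρ F₂ := by
  obtain ⟨-, F₁, F₂, h1, h2, h3⟩ := h
  exact ⟨F₁, F₂, fun z => h1 z (mem_univ z), h2, h3⟩

/-- the difference operator -/
theorem DS.dif {n : ℕ} {G ρ : ℝ} {w₀ : ℂ} {F : ℂ → ℂ} (hG : 0 ≤ G) (h : DS n G w₀ ρ F) (b : ℂ) :
    DS n (2 ^ n * (G * G)) w₀ ρ (dif b F) := by
  have h1 : DB n (fun z => ind w₀ ρ G (z + b)) univ (fun z => F (z + b)) :=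
    DB.comp_add h b (fun z _ => mem_univ _)
  have h2 := DB.mul h1 h.conj
  refine h2.mono subset_rfl fun z _ => ?_
  rw [← ind_mul]
  refine mul_le_mul_of_nonneg_left ?_ (by positivity)
  rw [← ind_mul]
  exact mul_le_mul_of_nonneg_right (ind_le hG) (ind_nonneg hG)

/-! ### Integrals -/

theorem itg_true (G : ℂ → ℂ) : itg true G = ∫ x : ℝ, G x := by simp [itg]

theorem itg_false (G : ℂ → ℂ) : itg false G = 2 * ∫ w : ℂ, G w := by simp [itg]

theorem itg_congr {r : Bool} {G G' : ℂ → ℂ} (h : ∀ w, Rl r w → G w = G' w) :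
    itg r G = itg r G' := by
  cases r
  · rw [itg_false, itg_false]
    congr 1
    exact integral_congr_ae (ae_of_all _ fun w => h w (Rl_false w))
  · rw [itg_true, itg_true]
    exact integral_congr_ae (ae_of_all _ fun x => h x (Rl_ofReal true x))

theorem itg_const_mul (r : Bool) (c : ℂ) (G : ℂ → ℂ) :
    itg r (fun w => c * G w) = c * itg r G := by
  cases r
  · rw [itg_false, itg_false, integral_const_mul]
    ring
  · rw [itg_true, itg_true, integral_const_mul]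

theorem itg_neg (r : Bool) (G : ℂ → ℂ) : itg r (fun w => -G w) = -itg r G := by
  cases r
  · rw [itg_false, itg_false, integral_neg]
    ring
  · rw [itg_true, itg_true, integral_neg]

theorem itg_add {r : Bool} {G G' : ℂ → ℂ} (h : Continuous G) (hc : HasCompactSupport G)
    (h' : Continuous G') (hc' : HasCompactSupport G') :
    itg r (fun w => G w + G' w) = itg r G + itg r G' := by
  cases r
  · rw [itg_false, itg_false, itg_false,
      integral_add (h.integrable_of_hasCompactSupport hc) (h'.integrable_of_hasCompactSupport hc')]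
    ring
  · have hemb : Topology.IsClosedEmbedding (fun x : ℝ => (x : ℂ)) :=
      Complex.isometry_ofReal.isClosedEmbedding
    rw [itg_true, itg_true, itg_true]
    exact integral_add
      ((h.comp Complex.continuous_ofReal).integrable_of_hasCompactSupport
        (hc.comp_isClosedEmbedding hemb))
      ((h'.comp Complex.continuous_ofReal).integrable_of_hasCompactSupport
        (hc'.comp_isClosedEmbedding hemb))

/-- a bound for the integral of a bounded function with support in a ball -/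
theorem norm_itg_le {r : Bool} {G : ℂ → ℂ} {w₀ : ℂ} {ρ B : ℝ} (hρ : 0 ≤ ρ) (hB : 0 ≤ B)
    (h : ∀ w, ‖G w‖ ≤ B) (h0 : ∀ w, ρ < ‖w - w₀‖ → G w = 0) :
    ‖itg r G‖ ≤ (2 * ρ + 8 * ρ ^ 2) * B := by
  cases r
  · rw [itg_false, norm_mul, Complex.norm_ofNat]
    have h1 : ∫ w : ℂ, G w = ∫ w in Metric.closedBall w₀ ρ, G w := by
      rw [setIntegral_eq_integral_of_forall_compl_eq_zero]
      intro w hw
      apply h0
      rw [Metric.mem_closedBall, dist_eq_norm, not_le] at hw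
      exact hw
    have hvol : volume (Metric.closedBall w₀ ρ) = ENNReal.ofReal (ρ ^ 2 * Real.pi) := by
      rw [Complex.volume_closedBall, ENNReal.ofReal_mul (by positivity),
        ENNReal.ofReal_pow hρ]
      congr 1
      rw [← NNReal.coe_real_pi, ENNReal.ofReal_coe_nnreal]
    have h2 : ‖∫ w in Metric.closedBall w₀ ρ, G w‖ ≤
        B * (volume (Metric.closedBall w₀ ρ)).toReal := by
      refine norm_setIntegral_le_of_norm_le_const ?_ (fun w _ => h w)
      rw [hvol]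
      exact ENNReal.ofReal_lt_top
    rw [h1]
    rw [hvol, ENNReal.toReal_ofReal (by positivity)] at h2
    have h3 := Real.pi_lt_four
    have h4 : B * (ρ ^ 2 * Real.pi) ≤ B * (ρ ^ 2 * 4) := by gcongr
    nlinarith [mul_nonneg hρ hB]
  · rw [itg_true]
    have h1 : ∫ x : ℝ, G x = ∫ x in Icc (w₀.re - ρ) (w₀.re + ρ), G x := by
      rw [setIntegral_eq_integral_of_forall_compl_eq_zero]
      intro x hx
      apply h0
      have h2 : |x - w₀.re| ≤ ‖(x : ℂ) - w₀‖ := by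
        have := Complex.abs_re_le_norm ((x : ℂ) - w₀)
        simpa using this
      refine lt_of_lt_of_le ?_ h2
      by_contra h3
      rw [not_lt, abs_le] at h3
      exact hx ⟨by linarith [h3.1], by linarith [h3.2]⟩
    have h2 : ‖∫ x in Icc (w₀.re - ρ) (w₀.re + ρ), G x‖ ≤
        B * (volume (Icc (w₀.re - ρ) (w₀.re + ρ))).toReal := by
      refine norm_setIntegral_le_of_norm_le_const ?_ (fun x _ => h x)
      rw [Real.volume_Icc]
      exact ENNReal.ofReal_lt_top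
    rw [h1]
    rw [Real.volume_Icc, ENNReal.toReal_ofReal (by linarith)] at h2
    nlinarith [mul_nonneg (sq_nonneg ρ) hB]

end Pool.Agent.H31.SW
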