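import Pool.Agent.H31.SW.Defs

/-!
# A sub-Weyl bound for Hecke L-functions: local targets
-/

set_option autoImplicit false

open NumberField NumberField.InfinitePlace NumberField.Units
  NumberField.Units.dirichletUnitTheorem MeasureTheory Set Filter Complex
open scoped nonZeroDivisors ENNReal

namespace Pool.Agent.H31.SW

open Pool.Agent.H29.DW (dg Rl lf)

/-! ### Integrals with holomorphic phases -/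

/-- (IB) partial integration along the vector field `v`. -/
def W_IB : Prop :=
  ∀ (r : Bool) (S K₀ : Set ℂ) (E E₁ E₂ g g₁ g₂ v v' : ℂ → ℂ), IsOpen S → IsCompact K₀ →
    K₀ ⊆ S → (∀ w ∈ S, HD E E₁ E₂ w) → ContinuousOn E₁ S → ContinuousOn E₂ S →
    (∀ w, HD g g₁ g₂ w) → Continuous g₁ → Continuous g₂ → (∀ w, w ∉ K₀ → g w = 0) →
    (∀ w ∈ S, HasDerivAt v (v' w) w) →
    (∀ w ∈ S, Rl r w → Rl r (v w)) →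
    itg r (fun w => ((((v w).re : ℝ) : ℂ) * E₁ w + (((v w).im : ℝ) : ℂ) * E₂ w) * g w) =
      -itg r (fun w => E w * ((((v w).re : ℝ) : ℂ) * g₁ w + (((v w).im : ℝ) : ℂ) * g₂ w +
        ((dg r * (v' w).re : ℝ) : ℂ) * g w))

/-- (N1) one step of the estimate of nonstationary integrals. -/
def W_N1 : Prop :=
  ∀ (n : ℕ) (ρ : ℝ), 0 < ρ → ∃ C : ℝ, 0 ≤ C ∧ ∀ (r : Bool) (w₀ : ℂ) (Ψ p g : ℂ → ℂ)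
    (G P : ℝ), 0 ≤ G → 0 < P → (∀ w ∈ Metric.ball w₀ (2 * ρ), HasDerivAt Ψ (p w) w) →
    (∀ w ∈ Metric.ball w₀ (2 * ρ), Rl r w → Rl r (p w)) →
    (∀ w ∈ Metric.ball w₀ (2 * ρ), P ≤ ‖p w‖) → DS (n + 1) G w₀ ρ g →
    ∃ g' : ℂ → ℂ, DS n (C * G / P) w₀ ρ g' ∧
      itg r (fun w => g w * EE (Ψ w)) = itg r (fun w => g' w * EE (Ψ w))

/-- (NS) nonstationary integrals. -/
def W_NS : Prop :=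
  ∀ (N : ℕ) (ρ : ℝ), 0 < ρ → ∃ C : ℝ, 0 ≤ C ∧ ∀ (r : Bool) (w₀ : ℂ) (Ψ p g : ℂ → ℂ)
    (G P : ℝ), 0 ≤ G → 0 < P → (∀ w ∈ Metric.ball w₀ (2 * ρ), HasDerivAt Ψ (p w) w) →
    (∀ w ∈ Metric.ball w₀ (2 * ρ), Rl r w → Rl r (p w)) →
    (∀ w ∈ Metric.ball w₀ (2 * ρ), P ≤ ‖p w‖) → DS N G w₀ ρ g →
    ‖itg r (fun w => g w * EE (Ψ w))‖ ≤ C * G / P ^ N

/-- (OI) the second derivative test. -/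
def W_OI : Prop :=
  ∀ ρ : ℝ, 0 < ρ → ∃ C : ℝ, 0 ≤ C ∧ ∀ (r : Bool) (w₀ Λ c k : ℂ) (Ψ H H' g : ℂ → ℂ) (G : ℝ),
    0 ≤ G → 1 ≤ ‖k‖ → (∀ w ∈ Metric.ball w₀ (4 * ρ), HasDerivAt Ψ (Λ * (H w + c)) w) →
    (∀ w ∈ Metric.ball w₀ (4 * ρ), HasDerivAt H (H' w) w ∧ ‖H' w - k‖ ≤ ‖k‖ / 2) →
    (∀ w ∈ Metric.ball w₀ (4 * ρ), Rl r w → Rl r (Λ * (H w + c))) → DS 3 G w₀ ρ g →
    ‖itg r (fun w => g w * EE (Ψ w))‖ ≤ C * G * (1 + ‖Λ‖) ^ (-(dg r : ℝ) / 2)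

/-- (SB) the substitution `ζ = Λ η`. -/
def W_SB : Prop :=
  ∀ (r : Bool) (Λ : ℂ) (G : ℂ → ℂ), Λ ≠ 0 → Rl r Λ →
    itg r G = ((‖Λ‖ ^ dg r : ℝ) : ℂ) * itg r (fun η => G (Λ * η))

/-! ### The phase functions -/

/-- (HU) the functions `hh`, `UU`, `psi`. -/
def W_HU : Prop :=
  ∀ a : ℂ, a ≠ 0 → ‖a‖ ≤ 1 / 10000 →
    (∀ w ∈ Metric.ball (1 : ℂ) (1 / 50), HasDerivAt (hh a) (-1 / (w ^ 2 - a ^ 2)) w) ∧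
    (∀ η ∈ Metric.ball (1 : ℂ) (1 / 50), HasDerivAt (psi a) (UU a η) η) ∧
    (∀ r, Rl r a → ∀ w ∈ Metric.ball (1 : ℂ) (1 / 50), Rl r w →
      Rl r (hh a w) ∧ Rl r (UU a w) ∧ Rl r (psi a w))

/-- (UD) the stationary point and its derivatives. -/
def W_UD : Prop :=
  (∀ a η : ℂ, ‖a‖ ≤ 1 / 100 → η ∈ Metric.ball (1 : ℂ) (1 / 50) →
    UU a η ^ 2 = a ^ 2 + η⁻¹ ∧ ‖UU a η - 1‖ < 1 / 50) ∧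
  (∀ n : ℕ, ContDiffOn ℝ n (fun q : ℂ × ℂ => UU q.1 q.2)
    (Metric.ball (0 : ℂ) (1 / 100) ×ˢ Metric.ball (1 : ℂ) (1 / 50))) ∧
  ∀ a : ℂ, ‖a‖ ≤ 1 / 10000 → ∃ U₁ U₂ U₃ U₄ : ℂ → ℂ, ∀ η ∈ Metric.ball (1 : ℂ) (1 / 100),
    HasDerivAt (UU a) (U₁ η) η ∧ HasDerivAt U₁ (U₂ η) η ∧ HasDerivAt U₂ (U₃ η) η ∧
    HasDerivAt U₃ (U₄ η) η ∧ ‖U₃ η‖ ≤ 6 ∧ ‖U₄ η - 105 / 16‖ ≤ 3

/-- (D3) threefold differences of holomorphic functions. -/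
def W_D3 : Prop :=
  ∀ (f f₁ f₂ f₃ : ℂ → ℂ) (w₀ k : ℂ) (ρ δ : ℝ), (∀ z ∈ Metric.ball w₀ ρ, HasDerivAt f (f₁ z) z ∧
      HasDerivAt f₁ (f₂ z) z ∧ HasDerivAt f₂ (f₃ z) z ∧ ‖f₃ z - k‖ ≤ δ) →
    ∀ z b₁ b₂ b₃ : ℂ, ‖z - w₀‖ + ‖b₁‖ + ‖b₂‖ + ‖b₃‖ < ρ →
    ‖(f (z + b₁ + b₂ + b₃) - f (z + b₁ + b₂) - f (z + b₁ + b₃) + f (z + b₁) - f (z + b₂ + b₃) +
      f (z + b₂) + f (z + b₃) - f z) - k * (b₁ * b₂ * b₃)‖ ≤ δ * ‖b₁ * b₂ * b₃‖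

/-! ### The amplitudes -/

/-- (GL) the class of the amplitudes is closed under the operators `LL`. -/
def W_GL : Prop :=
  ∀ g : ℂ × ℂ × ℂ → ℂ, GC g → ∀ (r : Bool) (d : ℂ), GC (LL r d g)

/-- (GB) bounds for the amplitudes. -/
def W_GB : Prop :=
  ∀ g : ℂ × ℂ × ℂ → ℂ, GC g → ∀ n : ℕ, ∃ C : ℝ, 0 ≤ C ∧ ∀ a η : ℂ, ‖a‖ ≤ 1 / 10000 →
    ‖η - 1‖ ≤ 1 / 100 → DS n C 1 (1 / 10000) (fun w => g (a, η, w))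

/-- (GP) the amplitude of the test functions. -/
def W_GP : Prop :=
  ∀ p : Bool → ℂ → ℂ, Pf p → ∀ r : Bool,
    GC (fun q => p r (q.2.2 + q.1 - 1) * (starRingEnd ℂ) (p r (q.2.2 - q.1 - 1)))

/-- (AD) the derivative of the dual amplitude. -/
def W_AD : Prop :=
  ∀ (r : Bool) (g : ℂ × ℂ × ℂ → ℂ) (a Λ z : ℂ), GC g → a ≠ 0 → ‖a‖ ≤ 1 / 10000 → Rl r a →
    Rl r Λ → z ∈ Metric.ball (1 : ℂ) (1 / 60) →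
    HD (AG r g a Λ) (AG r (LL r 1 g) a Λ) (if r then 0 else AG r (LL r I g) a Λ) z

/-- (AB) bounds for the dual amplitude and its derivatives. -/
def W_AB : Prop :=
  ∀ (r : Bool) (g : ℂ × ℂ × ℂ → ℂ), GC g → ∀ n : ℕ, ∃ C : ℝ, 0 ≤ C ∧ ∀ a Λ : ℂ, a ≠ 0 →
    ‖a‖ ≤ 1 / 10000 → Rl r a → Rl r Λ →
    DB n (fun _ => C * (1 + ‖Λ‖) ^ (-(dg r : ℝ) / 2)) (Metric.ball 1 (1 / 100)) (AG r g a Λ)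

/-- (FD) the derivatives of the Fourier transform. -/
def W_FD : Prop :=
  ∀ (r : Bool) (f : ℂ → ℂ) (R : ℝ), Continuous f → (∀ w, R < ‖w‖ → f w = 0) → ∀ z : ℂ,
    HD (FF r f) (FF r (fun w => -(I * ((w.re : ℝ) : ℂ)) * f w))
      (FF r (fun w => (I * ((w.im : ℝ) : ℂ)) * f w)) z

/-- (OU) the Fourier transform away from the stationary region. -/
def W_OU : Prop :=
  ∀ k : ℕ, ∃ C : ℝ, 0 ≤ C ∧ ∀ (r : Bool) (g : ℂ → ℂ) (G : ℝ) (a Λ z : ℂ), 0 ≤ G →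
    DS k G 1 (1 / 10000) g → a ≠ 0 → ‖a‖ ≤ 1 / 10000 → Rl r a → Rl r Λ →
    (1 / 1000 * ‖Λ‖ ≤ ‖pj r z - Λ‖ ∨ ‖Λ‖ ≤ 1) →
    ‖FF r (fun w => g w * EE (Λ * hh a w)) z‖ ≤ C * G * (1 + ‖Λ‖ + ‖pj r z‖) ^ (-(k : ℝ))

/-- (DE) the decomposition of the Fourier transform of the product of two test functions. -/
def W_DE : Prop :=
  ∀ p : Bool → ℂ → ℂ, Pf p → ∀ N k : ℕ, ∃ C : ℝ, 0 < C ∧ ∀ (r : Bool) (c a : ℂ), a ≠ 0 →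
    ‖a‖ ≤ 1 / 10000 → Rl r a → Rl r c → ∃ F : Option (ℤ × ℤ) → ℂ → ℂ,
    (∀ ζ, Rl r ζ → HasSum (fun j => F j ζ) (FF r (G2 (p r) c a) ζ)) ∧
    (‖2 * c * a‖ < 1 → F none = 0) ∧
    (1 ≤ ‖2 * c * a‖ → ∃ A : ℂ → ℂ, DS N (C * ‖2 * c * a‖ ^ (-(dg r : ℝ) / 2)) 1 (1 / 500) A ∧
      F none = FT1 (2 * c * a) a A) ∧
    ∀ m n : ℤ, DS N (C * (1 + ‖2 * c * a‖ + ‖(m + n * I : ℂ)‖) ^ (-(k : ℝ))) (m + n * I) 2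
      (F (some (m, n)))

/-! ### Three differences -/

/-- (L1) the transform of three differences of a function of type 1. -/
def W_L1 : Prop :=
  ∀ k : ℕ, ∃ C : ℝ, 0 ≤ C ∧ ∀ (r : Bool) (Λ a b₁ b₂ b₃ X : ℂ) (A : ℂ → ℂ), 1 ≤ ‖Λ‖ → Rl r Λ →
    a ≠ 0 → ‖a‖ ≤ 1 / 10000 → Rl r a → DS (k + 3) 1 1 (1 / 500) A → Rl r b₁ → Rl r b₂ →
    Rl r b₃ → b₁ ≠ 0 → b₂ ≠ 0 → b₃ ≠ 0 → ‖b₁‖ ≤ 1 / 2000 * ‖Λ‖ → ‖b₂‖ ≤ 1 / 2000 * ‖Λ‖ →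
    ‖b₃‖ ≤ 1 / 2000 * ‖Λ‖ → Rl r X →
    ‖FF r (dif b₃ (dif b₂ (dif b₁ (FT1 Λ a A)))) X‖ ≤
      C * ‖Λ‖ ^ dg r * (1 + ‖b₁‖ * ‖b₂‖ * ‖b₃‖ / ‖Λ‖ ^ 2) ^ (-(dg r : ℝ) / 2) *
        (1 + ‖X‖ * ‖Λ‖ / (1 + ‖b₁‖ * ‖b₂‖ * ‖b₃‖ / ‖Λ‖ ^ 2)) ^ (-(k : ℝ))

/-- (L3) the transform of three differences of a normalised local datum. -/
def W_L3 : Prop :=
  ∀ k : ℕ, ∃ C : ℝ, 0 ≤ C ∧ ∀ (r t : Bool) (Λ a g b₁ b₂ b₃ X : ℂ) (F : ℂ → ℂ),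
    LDat (k + 3) r t Λ a g F → Rl r b₁ → Rl r b₂ → Rl r b₃ →
    (t = true → b₁ ≠ 0 ∧ b₂ ≠ 0 ∧ b₃ ≠ 0 ∧ ‖b₁‖ ≤ 1 / 2000 * ‖Λ‖ ∧ ‖b₂‖ ≤ 1 / 2000 * ‖Λ‖ ∧
      ‖b₃‖ ≤ 1 / 2000 * ‖Λ‖) → Rl r X →
    ‖FF r (dif b₃ (dif b₂ (dif b₁ F))) X‖ ≤
      C * Mt t Λ ^ dg r * (1 + Ph t Λ b₁ b₂ b₃) ^ (-(dg r : ℝ) / 2) *
        (1 + ‖X‖ * Mt t Λ / (1 + Ph t Λ b₁ b₂ b₃)) ^ (-(k : ℝ))

end Pool.Agent.H31.SW
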