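import Pool.Agent.H29.DW.Targets

/-!
# A sub-Weyl bound for Hecke L-functions: definitions
-/

set_option autoImplicit false

open NumberField NumberField.InfinitePlace NumberField.Units
  NumberField.Units.dirichletUnitTheorem MeasureTheory Set Filter Complex
open scoped nonZeroDivisors ENNReal

namespace Pool.Agent.H31.SW

open Pool.Agent.H25.HK Pool.Agent.H23.LB Pool.Agent.H23.LC
open Pool.Agent.H28.RC (Rep ft idl)
open Pool.Agent.H29.DW (dg Rl lf wv Pos Wg cpar Ci om zs rv)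

/-! ### Local objects (`r = true`: the real numbers, `r = false`: the complex numbers) -/

/-- `exp(-i Re z)` -/
noncomputable def EE (z : ℂ) : ℂ := cexp (-((z.re : ℝ) : ℂ) * I)

/-- the integral over the completion -/
noncomputable def itg (r : Bool) (G : ℂ → ℂ) : ℂ :=
  if r then ∫ x : ℝ, G x else 2 * ∫ w : ℂ, G w

/-- the Fourier transform -/
noncomputable def FF (r : Bool) (G : ℂ → ℂ) (ζ : ℂ) : ℂ := itg r (fun w => EE (ζ * w) * G w)

/-- the real part if `r = true` -/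
noncomputable def pj (r : Bool) (z : ℂ) : ℂ := if r then ((z.re : ℝ) : ℂ) else z

/-- `F` has the partial derivatives `F₁` and `F₂` at `z` -/
def HD (F F₁ F₂ : ℂ → ℂ) (z : ℂ) : Prop :=
  HasFDerivAt F (Complex.reCLM.smulRight (F₁ z) + Complex.imCLM.smulRight (F₂ z)) z

/-- `F` and its partial derivatives of order at most `n` are bounded by `U` on `S` (and those of
order at most `n - 1` are differentiable, those of order `n` continuous) -/
def DB : ℕ → (ℂ → ℝ) → Set ℂ → (ℂ → ℂ) → Prop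
  | 0, U, S, F => ContinuousOn F S ∧ ∀ z ∈ S, ‖F z‖ ≤ U z
  | n + 1, U, S, F => (∀ z ∈ S, ‖F z‖ ≤ U z) ∧ ∃ F₁ F₂ : ℂ → ℂ,
      (∀ z ∈ S, HD F F₁ F₂ z) ∧ DB n U S F₁ ∧ DB n U S F₂

/-- the constant `G` on the ball, and `0` outside -/
noncomputable def ind (w₀ : ℂ) (ρ G : ℝ) (z : ℂ) : ℝ :=
  open scoped Classical in if ‖z - w₀‖ ≤ ρ then G else 0

/-- functions with support in the closed ball and derivatives of order at most `n` bounded by
`G` -/
def DS (n : ℕ) (G : ℝ) (w₀ : ℂ) (ρ : ℝ) (F : ℂ → ℂ) : Prop := DB n (ind w₀ ρ G) univ F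

/-- the difference operator -/
noncomputable def dif {α : Type} [Add α] (b : α) (F : α → ℂ) : α → ℂ := fun z =>
  F (z + b) * (starRingEnd ℂ) (F z)

/-- `(log(w + a) - log(w - a)) / (2 a)` -/
noncomputable def hh (a w : ℂ) : ℂ := (Complex.log (w + a) - Complex.log (w - a)) / (2 * a)

/-- the stationary point `sqrt(a ^ 2 + 1 / η)` -/
noncomputable def UU (a η : ℂ) : ℂ := cexp (Complex.log (a ^ 2 + η⁻¹) / 2)

/-- the dual phase -/
noncomputable def psi (a η : ℂ) : ℂ := hh a (UU a η) + η * UU a η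

/-- the vector field of the partial integration -/
noncomputable def kk (a η w : ℂ) : ℂ := (w ^ 2 - a ^ 2) / (η * (w + UU a η))

/-- its derivative with respect to `w` -/
noncomputable def kk' (a η w : ℂ) : ℂ :=
  (2 * w * (w + UU a η) - (w ^ 2 - a ^ 2)) / (η * (w + UU a η) ^ 2)

/-- the domain of the amplitudes `g(a, η, w)` -/
def O3 : Set (ℂ × ℂ × ℂ) :=
  Metric.ball 0 (1 / 100) ×ˢ Metric.ball 1 (1 / 50) ×ˢ Metric.ball 1 (1 / 100)

/-- amplitudes -/
def GC (g : ℂ × ℂ × ℂ → ℂ) : Prop :=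
  (∀ n : ℕ, ContDiffOn ℝ n g O3) ∧ ∀ a η w : ℂ, 1 / 10000 < ‖w - 1‖ → g (a, η, w) = 0

/-- the operator on the amplitudes which corresponds to the derivative of the integral in the
direction `d` -/
noncomputable def LL (r : Bool) (d : ℂ) (g : ℂ × ℂ × ℂ → ℂ) (q : ℂ × ℂ × ℂ) : ℂ :=
  fderiv ℝ g q (0, d, -(kk q.1 q.2.1 q.2.2 * d)) -
    ((dg r * (kk' q.1 q.2.1 q.2.2 * d).re : ℝ) : ℂ) * g q

/-- the amplitude of the dual phase -/
noncomputable def AG (r : Bool) (g : ℂ × ℂ × ℂ → ℂ) (a Λ z : ℂ) : ℂ :=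
  itg r (fun w => g (a, pj r z, w) * EE (Λ * (hh a w + pj r z * w - psi a (pj r z))))

/-- a function of type 1: the dual phase with an amplitude -/
noncomputable def FT1 (Λ a : ℂ) (A : ℂ → ℂ) (ζ : ℂ) : ℂ := A (ζ / Λ) * EE (Λ * psi a (ζ / Λ))

/-- the cut-off function: `1` for `|x| ≤ 1 / 1000`, `0` for `|x| ≥ 1 / 500` -/
noncomputable def b2 : ContDiffBump (0 : ℂ) := ⟨1 / 1000, 1 / 500, by norm_num, by norm_num⟩

/-- smooth functions with support in the ball of radius `1 / 10000` -/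
def Pf (p : Bool → ℂ → ℂ) : Prop :=
  (∀ (r : Bool) (n : ℕ), ContDiff ℝ n (p r)) ∧ ∀ r x, 1 / 10000 < ‖x‖ → p r x = 0

/-- the test function `exp(-i Re(c log w)) p(w - 1)` -/
noncomputable def GG (p : ℂ → ℂ) (c w : ℂ) : ℂ := EE (c * Complex.log w) * p (w - 1)

/-- the product of two shifted test functions -/
noncomputable def G2 (p : ℂ → ℂ) (c a w : ℂ) : ℂ :=
  GG p c (w + a) * (starRingEnd ℂ) (GG p c (w - a))

/-- normalised local data: type 1 (`t = true`) or type 2 (`t = false`) -/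
structure LDat (N : ℕ) (r t : Bool) (Λ a g : ℂ) (F : ℂ → ℂ) : Prop where
  one : t = true → 1 ≤ ‖Λ‖ ∧ Rl r Λ ∧ a ≠ 0 ∧ ‖a‖ ≤ 1 / 10000 ∧ Rl r a ∧
    ∃ A : ℂ → ℂ, DS N 1 1 (1 / 500) A ∧ F = FT1 Λ a A
  two : t = false → DS N 1 g 2 F

/-- the scale -/
noncomputable def Mt (t : Bool) (Λ : ℂ) : ℝ := if t then ‖Λ‖ else 1

/-- the size of the phase after three differences -/
noncomputable def Ph (t : Bool) (Λ b₁ b₂ b₃ : ℂ) : ℝ :=
  if t then ‖b₁‖ * ‖b₂‖ * ‖b₃‖ / ‖Λ‖ ^ 2 else 0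

/-! ### Global objects -/

section NF

variable {K : Type} [Field K] [NumberField K]

/-- the density of the lattice at the position `y` -/
noncomputable def DD (L : FI K) (y : InfinitePlace K → ℝ) : ℝ :=
  Real.exp (-(∑ v, (v.mult : ℝ) * y v) / 2) / (FractionalIdeal.absNorm L : ℝ)

/-- the product of the `R_v ^ e_v` -/
noncomputable def PP (R : InfinitePlace K → ℝ) : ℝ := ∏ v : InfinitePlace K, R v ^ v.mult

/-- the product of the local functions -/
noncomputable def pF (F : InfinitePlace K → ℂ → ℂ) (y : InfinitePlace K → ℝ)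
    (ω : InfinitePlace K → ℂ) (x : K) : ℂ :=
  ∏ v : InfinitePlace K, F v (wv v x y ω)

variable (K)

/-- the absolute value of the discriminant -/
noncomputable def dK : ℝ := |(discr K : ℝ)|

end NF

end Pool.Agent.H31.SW
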