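import Pool.Agent.H76.SW.T

/-!
Shortening of a ladder.
-/

namespace Pool.Agent.H31.SW

open Relation Pool.Agent.H76.SW

variable {P Q : Type}

/-- A monotone strand through the ladder. -/
def Str (ρ : P × Q → P × Q → Prop) (L : ℕ) (pr : ℕ → Bool → P) (σ : ℕ → Bool)
    (m : ℕ → Bool) (s t : ℕ → Q) : Prop :=
  ∀ n, n < L → ρ (pr n (m n), t n) (pr n (xor (m (n + 1)) (σ n)), s (n + 1)) ∧
    ρ (pr n (xor (m (n + 1)) (σ n)), s (n + 1)) (pr (n + 1) (m (n + 1)), t (n + 1))

/-- A strand with given ends. -/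
def AStr (ρ : P × Q → P × Q → Prop) (L : ℕ) (pr : ℕ → Bool → P) (σ : ℕ → Bool)
    (c : Bool) (x : Q) (c' : Bool) (x' : Q) (m : ℕ → Bool) : Prop :=
  ∃ s t : ℕ → Q, m 0 = c ∧ t 0 = x ∧ Str ρ L pr σ m s t ∧ ρ (pr L (m L), t L) (pr L c', x')

theorem xor_swap {a b c : Bool} (h : a = xor b c) : b = xor a c := by
  subst h; cases b <;> cases c <;> rfl

theorem get (h1 : U_f3a_down) (ρ : P × Q → P × Q → Prop)
    (hρ : ∀ x y z, ρ x y → ρ y z → ρ x z) (hρr : ∀ x, ρ x x) (L : ℕ) (pr : ℕ → Bool → P)
    (σ : ℕ → Bool) (c : Bool) (x : Q) (c' : Bool) (x' : Q)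
    (h : ReflTransGen (LS ρ L pr σ) ((0, c), x) ((L, c'), x')) :
    ∃ m, AStr ρ L pr σ c x c' x' m := by
  have h2 := h1 ρ hρ hρr pr (fun j m p => ∃ i, j = i + 1 ∧ i + 1 ≤ L ∧ m = xor p (σ i)) c x L c' x'
    (by
      refine Relation.ReflTransGen.mono ?_ _ _ h
      rintro a b ⟨h3, h4 | ⟨h4, h5, h6⟩ | ⟨h4, h5, h6⟩⟩
      · exact ⟨h3, Or.inl h4⟩
      · exact ⟨h3, Or.inr (Or.inl ⟨h4, a.1.1, h4, h4 ▸ h5, h6⟩)⟩
      · exact ⟨h3, Or.inr (Or.inr ⟨h4, b.1.1, h4, h4 ▸ h5, h6⟩)⟩)
  obtain ⟨m, p, s, t, hm, ht, h3, h4⟩ := h2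
  refine ⟨m, s, t, hm, ht, fun n hn => ?_, h4⟩
  obtain ⟨h5, ⟨i, hi, -, h6⟩, h7⟩ := h3 n hn
  have hi' : i = n := by omega
  subst hi'
  rw [← xor_swap h6]
  exact ⟨h5, h7⟩

theorem back (ρ : P × Q → P × Q → Prop) (L : ℕ) (pr : ℕ → Bool → P)
    (σ : ℕ → Bool) (c : Bool) (x : Q) (c' : Bool) (x' : Q) (m : ℕ → Bool)
    (h : AStr ρ L pr σ c x c' x' m) :
    ReflTransGen (LS ρ L pr σ) ((0, c), x) ((L, c'), x') := by
  obtain ⟨s, t, hm, ht, h1, h2⟩ := h
  have key : ∀ n, n ≤ L → ReflTransGen (LS ρ L pr σ) ((0, c), x) ((n, m n), t n) := by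
    intro n
    induction n with
    | zero => intro _; rw [hm, ht]
    | succ n ih =>
      intro hn
      refine ((ih (by omega)).tail (b := ((n, m n), t n))
        (c := ((n, xor (m (n + 1)) (σ n)), s (n + 1))) ⟨(h1 n (by omega)).1, Or.inl rfl⟩).tail
        ⟨(h1 n (by omega)).2, Or.inr (Or.inl ⟨rfl, hn, ?_⟩)⟩
      exact xor_swap rfl
  exact (key L le_rfl).tail ⟨h2, Or.inl rfl⟩

theorem flipLS (ρ : P × Q → P × Q → Prop) (L : ℕ) (pr : ℕ → Bool → P) (σ : ℕ → Bool)
    (a b : (ℕ × Bool) × Q) (h : ReflTransGen (LS ρ L pr σ) a b) :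
    ReflTransGen (LS (fun u v => ρ v u) L pr σ) b a := by
  induction h with
  | refl => exact ReflTransGen.refl
  | tail _ h2 ih =>
    refine ReflTransGen.head ?_ ih
    obtain ⟨h3, h4 | h4 | h4⟩ := h2
    · exact ⟨h3, Or.inl h4.symm⟩
    · exact ⟨h3, Or.inr (Or.inr h4)⟩
    · exact ⟨h3, Or.inr (Or.inl h4)⟩

theorem chain (ρ : P × Q → P × Q → Prop)
    (hρ : ∀ x y z, ρ x y → ρ y z → ρ x z) (hρr : ∀ x, ρ x x) (L : ℕ) (pr : ℕ → Bool → P)
    (σ : ℕ → Bool) (m : ℕ → Bool) (s t : ℕ → Q) (h : Str ρ L pr σ m s t) (a : ℕ) (d : ℕ)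
    (hd : a + d ≤ L) : ρ (pr a (m a), t a) (pr (a + d) (m (a + d)), t (a + d)) := by
  induction d with
  | zero => exact hρr _
  | succ d ih =>
    have h2 := h (a + d) (by omega)
    exact hρ _ _ _ (ih (by omega)) (hρ _ _ _ h2.1 h2.2)

theorem cut (ρ : P × Q → P × Q → Prop)
    (hρ : ∀ x y z, ρ x y → ρ y z → ρ x z) (hρr : ∀ x, ρ x x) (L : ℕ) (pr : ℕ → Bool → P)
    (σ : ℕ → Bool) (c : Bool) (x : Q) (c' : Bool) (x' : Q) (m : ℕ → Bool)
    (h : AStr ρ L pr σ c x c' x' m) (i d : ℕ) (hi : 1 ≤ i) (hd : i + d ≤ L)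
    (hm : m i = m (i + d)) :
    AStr ρ (L - d) (fun n => if n < i then pr n else pr (n + d))
      (fun n => if n < i then σ n else σ (n + d)) c x c' x'
      (fun n => if n < i then m n else m (n + d)) := by
  obtain ⟨s, t, h1, h2, h3, h4⟩ := h
  refine ⟨fun n => if n ≤ i then s n else s (n + d), fun n => if n < i then t n else t (n + d),
    ?_, ?_, ?_, ?_⟩
  · simp only [show (0 < i) from hi, if_true, h1]
  · simp only [show (0 < i) from hi, if_true, h2]
  · intro n hn
    rcases lt_trichotomy (n + 1) i with h5 | h5 | h5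
    · have h6 : n < i := by omega
      have h7 : n + 1 ≤ i := by omega
      simp only [h5, h6, h7, if_true]
      exact h3 n (by omega)
    · have h6 : n < i := by omega
      have h7 : n + 1 ≤ i := by omega
      have h8 : ¬ (n + 1 < i) := by omega
      simp only [h6, h7, h8, if_true, if_false]
      subst h5
      rw [← hm]
      have h9 := h3 n (by omega)
      refine ⟨h9.1, hρ _ _ _ h9.2 ?_⟩
      have h10 := chain ρ hρ hρr L pr σ m s t h3 (n + 1) d (by omega)
      rw [← hm] at h10
      exact h10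
    · have h6 : ¬ (n < i) := by omega
      have h7 : ¬ (n + 1 ≤ i) := by omega
      have h8 : ¬ (n + 1 < i) := by omega
      simp only [h6, h7, h8, if_false]
      have h9 := h3 (n + d) (by omega)
      rw [show n + d + 1 = n + 1 + d by omega] at h9
      exact h9
  · have h5 : ¬ (L - d < i) := by omega
    simp only [h5, if_false]
    rw [show L - d + d = L by omega]
    exact h4

theorem pf_G2 (h1 : U_f3a_down) : U_g2_ladder := by
  classical
  intro P Q _ ρ hρ hρr L
  induction L using Nat.strong_induction_on with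
  | _ L ih =>
  intro pr σ h
  by_cases hL : L ≤ KW (Fintype.card Q)
  · exact ⟨L, pr, σ, hL, rfl, rfl, h⟩
  have hL := not_le.1 hL
  have hρ' : ∀ x y z, (fun u v => ρ v u) x y → (fun u v => ρ v u) y z → (fun u v => ρ v u) x z :=
    fun x y z h2 h3 => hρ _ _ _ h3 h2
  -- choice of the strands
  let rr : Bool → P × Q → P × Q → Prop := fun b => if b then ρ else fun u v => ρ v u
  let K := Bool × (Bool × Q) × (Bool × Q)
  let A : K → (ℕ → Bool) → Prop := fun k m =>
    AStr (rr k.1) L pr σ k.2.1.1 k.2.1.2 k.2.2.1 k.2.2.2 m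
  let w : K → ℕ → Bool := fun k => if hk : ∃ m, A k m then hk.choose else fun _ => false
  have hw : ∀ k, (∃ m, A k m) → A k (w k) := by
    intro k hk
    have : w k = hk.choose := dif_pos hk
    rw [this]
    exact hk.choose_spec
  let pat : Fin L → (K → Bool) := fun i k => w k (i.val + 1)
  have hcard : Fintype.card (K → Bool) < Fintype.card (Fin L) := by
    have e : Fintype.card (K → Bool) = KW (Fintype.card Q) := by
      simp only [K, Fintype.card_fun, Fintype.card_prod, Fintype.card_bool, KW]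
      congr 1
      ring
    rw [e, Fintype.card_fin]
    exact hL
  obtain ⟨i0, j0, hne, hpat⟩ := Fintype.exists_ne_map_eq_of_card_lt pat hcard
  -- wlog i0 < j0
  obtain ⟨i, d, hi, hd0, hd, hm⟩ : ∃ i d : ℕ, 1 ≤ i ∧ 0 < d ∧ i + d ≤ L ∧
      ∀ k, w k i = w k (i + d) := by
    rcases lt_or_gt_of_ne (fun h => hne (Fin.ext h) : i0.val ≠ j0.val) with h2 | h2
    · refine ⟨i0.val + 1, j0.val - i0.val, by omega, by omega, by have := j0.isLt; omega,
        fun k => ?_⟩
      rw [show i0.val + 1 + (j0.val - i0.val) = j0.val + 1 by omega]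
      exact congrFun hpat k
    · refine ⟨j0.val + 1, i0.val - j0.val, by omega, by omega, by have := i0.isLt; omega,
        fun k => ?_⟩
      rw [show j0.val + 1 + (i0.val - j0.val) = i0.val + 1 by omega]
      exact (congrFun hpat k).symm
  have e0 : (fun n => if n < i then pr n else pr (n + d)) 0 = pr 0 := by
    simp only [show (0 < i) from hi, if_true]
  have eL : (fun n => if n < i then pr n else pr (n + d)) (L - d) = pr L := by
    have h5 : ¬ (L - d < i) := by omega
    simp only [h5, if_false]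
    rw [show L - d + d = L by omega]
  obtain ⟨L', pr', σ', g1, g2, g3, g4⟩ := ih (L - d) (by omega)
    (fun n => if n < i then pr n else pr (n + d)) (fun n => if n < i then σ n else σ (n + d)) (by
      intro u v c c' s s' hu hv hr
      by_cases huv : u = v
      · subst huv
        exact ReflTransGen.single ⟨hr, Or.inl rfl⟩
      · rcases hu with hu | hu
        · have hv' : v = L - d := by
            rcases hv with hv | hv
            · exact absurd (hu.trans hv.symm) huv
            · exact hv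
          subst hu hv'
          have hr : ρ (pr 0 c, s) (pr L c', s') := by
            have e0' := congrFun e0 c
            have eL' := congrFun eL c'
            simp only at e0' eL' hr
            rw [e0', eL'] at hr
            exact hr
          have h2 := h 0 L c c' s s' (Or.inl rfl) (Or.inr rfl) hr
          obtain ⟨m, h3⟩ := get h1 ρ hρ hρr L pr σ c s c' s' h2
          have h4 : A (true, (c, s), (c', s')) (w (true, (c, s), (c', s'))) :=
            hw _ ⟨m, by simpa only [A, rr, if_true] using h3⟩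
          have h5 : AStr ρ L pr σ c s c' s' (w (true, (c, s), (c', s'))) := by
            simpa only [A, rr, if_true] using h4
          exact back _ _ _ _ _ _ _ _ _ (cut ρ hρ hρr L pr σ c s c' s' _ h5 i d hi hd (hm _))
        · have hv' : v = 0 := by
            rcases hv with hv | hv
            · exact hv
            · exact absurd (hu.trans hv.symm) huv
          subst hu hv'
          have hr : ρ (pr L c, s) (pr 0 c', s') := by
            have e0' := congrFun e0 c'
            have eL' := congrFun eL c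
            simp only at e0' eL' hr
            rw [e0', eL'] at hr
            exact hr
          have h2 := h L 0 c c' s s' (Or.inr rfl) (Or.inl rfl) hr
          have h2' := flipLS ρ L pr σ _ _ h2
          obtain ⟨m, h3⟩ := get h1 (fun u v => ρ v u) hρ' hρr L pr σ c' s' c s h2'
          have h4 : A (false, (c', s'), (c, s)) (w (false, (c', s'), (c, s))) :=
            hw _ ⟨m, by simpa only [A, rr, Bool.false_eq_true, if_false] using h3⟩
          have h5 : AStr (fun u v => ρ v u) L pr σ c' s' c s (w (false, (c', s'), (c, s))) := by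
            simpa only [A, rr, Bool.false_eq_true, if_false] using h4
          exact flipLS _ _ _ _ _ _ (back _ _ _ _ _ _ _ _ _
            (cut (fun u v => ρ v u) hρ' hρr L pr σ c' s' c s _ h5 i d hi hd (hm _))))
  exact ⟨L', pr', σ', g1, g2.trans e0, g3.trans eL, g4⟩

end Pool.Agent.H31.SW
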