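import Pool.Agent.H76.SW.T

/-!
Unfolding of the further symbols of a body.
-/

namespace Pool.Agent.H31.SW

open Relation Pool.Agent.H76.SW

theorem core (h1 : U_q0_eq) {A Q : Type} (tr : Q → A × Bool → Q → Prop) {c : ℕ} (b : Body A c)
    (Fb : Set ((Fin b.n × Q) × (Fin b.n × Q))) (l1 l2 : Fin c → Fin b.n)
    (hb : BodyForm tr b Fb l1 l2) (sub : Fin c → RQ A) (nn : ℕ)
    (hs : ∀ j, IsFQ tr nn (sub j)) (N : ℕ) (hN : b.n + c * nn ≤ N) (I : Type)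
    (g : I → Fin b.n) (h0 : 0 < b.n) :
    ∃ (F' : Set ((Fin N × Q) × (Fin N × Q))) (o : I → Fin N),
      ∀ (V : Type) (E : V → A → V → Prop) (z : I → V),
        (∃ μ : Fin b.n → V, b.Holds E (fun j => (sub j).Sat E) μ ∧ ∀ i, μ (g i) = z i) ↔
        ∃ μ : Fin N → V, (∀ e ∈ F', Reach E tr (μ e.1.1, e.1.2) (μ e.2.1, e.2.2)) ∧
          ∀ i, μ (o i) = z i := by
  choose F x y hF using hs
  let W := Fin b.n ⊕ (Fin c × Fin nn)
  have : Nonempty W := ⟨Sum.inl ⟨0, h0⟩⟩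
  have hc : Fintype.card W ≤ N := by
    have : Fintype.card W = b.n + c * nn := by simp [W]
    omega
  let FW : Set ((W × Q) × (W × Q)) :=
    {e | (∃ e0 ∈ Fb, e = ((Sum.inl e0.1.1, e0.1.2), (Sum.inl e0.2.1, e0.2.2))) ∨
      ∃ j, ∃ e0 ∈ F j, e = ((Sum.inr (j, e0.1.1), e0.1.2), (Sum.inr (j, e0.2.1), e0.2.2))}
  let R : W → W → Prop := fun s t =>
    ∃ j, (s = Sum.inl (l1 j) ∧ t = Sum.inr (j, x j)) ∨ (s = Sum.inl (l2 j) ∧ t = Sum.inr (j, y j))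
  obtain ⟨F', π, hπ⟩ := h1 tr FW R (fun i : I => (Sum.inl (g i) : W)) N hc
  refine ⟨F', fun i => π (Sum.inl (g i)), fun V E z => ?_⟩
  rw [← hπ V E z]
  constructor
  · rintro ⟨μ, hμ, hz⟩
    rw [hb] at hμ
    obtain ⟨h2, h3⟩ := hμ
    have h4 := fun j => (hF j V E (μ (l1 j)) (μ (l2 j))).1 (h3 j)
    choose ν hν1 hν2 hν3 using h4
    refine ⟨Sum.elim μ (fun p => ν p.1 p.2), ?_, ?_, hz⟩
    · rintro e (⟨e0, he0, rfl⟩ | ⟨j, e0, he0, rfl⟩)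
      · exact h2 e0 he0
      · exact hν1 j e0 he0
    · rintro s t ⟨j, ⟨rfl, rfl⟩ | ⟨rfl, rfl⟩⟩
      · exact (hν2 j).symm
      · exact (hν3 j).symm
  · rintro ⟨μ, h2, h3, hz⟩
    refine ⟨fun i => μ (Sum.inl i), ?_, hz⟩
    rw [hb]
    refine ⟨fun e he => h2 _ (Or.inl ⟨e, he, rfl⟩), fun j => ?_⟩
    rw [hF j V E]
    exact ⟨fun i => μ (Sum.inr (j, i)), fun e he => h2 _ (Or.inr ⟨j, e, he, rfl⟩),
      (h3 _ _ ⟨j, Or.inl ⟨rfl, rfl⟩⟩).symm, (h3 _ _ ⟨j, Or.inr ⟨rfl, rfl⟩⟩).symm⟩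

theorem pf_Q5 (h1 : U_q0_eq) : U_q5_unfold := by
  intro A Q tr c b Fb l1 l2 hb sub nn hs N hN
  refine ⟨fun p q => ?_, fun r out h0 => ?_⟩
  · have h0 : 0 < b.n := lt_of_le_of_lt (Nat.zero_le _) p.2
    obtain ⟨F', o, h⟩ := core h1 tr b Fb l1 l2 hb sub nn hs N hN Bool
      (fun i => if i then q else p) h0
    refine ⟨F', o false, o true, fun V E u v => ?_⟩
    have h2 := h V E (fun i => if i then v else u)
    simpa only [Bool.forall_bool, if_true, if_false, Bool.false_eq_true, RQ.Sat] using h2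
  · obtain ⟨F', o, h⟩ := core h1 tr b Fb l1 l2 hb sub nn hs N hN (Fin r) out h0
    refine ⟨F', o, fun V E z => ?_⟩
    exact h V E z

end Pool.Agent.H31.SW
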