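import Pool.Agent.H31.SW.Defs

/-!
# A sub-Weyl bound for Hecke L-functions: the partition of unity
-/

set_option autoImplicit false

open MeasureTheory Set Filter Complex

namespace Pool.Agent.H31.SW

open Pool.Agent.H29.DW (dg Rl lf)

open scoped Classical in
/-- (BU) a partition of unity with bumps at the integral points. -/
def W_BU : Prop :=
  ∃ bu : ℂ → ℂ, (∀ n : ℕ, ∃ C : ℝ, 0 ≤ C ∧ ∀ g : ℂ, DS n C g 2 (fun z => bu (z - g))) ∧
    ∀ (r : Bool) (z : ℂ), Rl r z → HasSum (fun q : ℤ × ℤ =>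
      if (r = true → q.2 = 0) then bu (z - ((q.1 : ℂ) + (q.2 : ℂ) * I)) else 0) 1

end Pool.Agent.H31.SW
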